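import Mathlib
import Pool.Agent.Q256.T3.Fin
import Pool.Agent.Q256.LN.Sml

set_option autoImplicit false

/-!
Quadratic points of projective space.
-/

namespace Pool.Agent.Q256.T4

open Finset
open Pool.Agent.Q256.CI
open Pool.Agent.Q256.LN (res)

/-- the coefficient of `Y i * Y j` in the norm of the linear form `∑ (p k + q k √D) Y k`. -/
def nc {N : ℕ} (p q : Fin N → ℤ) (D : ℤ) (i j : Fin N) : ℤ :=
  if i = j then p i ^ 2 - D * q i ^ 2 else 2 * (p i * p j - D * (q i * q j))

/-- the norm of the ideal generated by the coordinates `p k + q k √D`: the content of the norm of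
the linear form `∑ (p k + q k √D) Y k`. -/
def cont {N : ℕ} (p q : Fin N → ℤ) (D : ℤ) : ℤ :=
  (univ : Finset (Fin N × Fin N)).gcd (fun ij => nc p q D ij.1 ij.2)

/-- the value of `F` at the point `(p k + q k √D)`. -/
noncomputable def valD {N : ℕ} (F : MvPolynomial (Fin N) ℤ) (p q : Fin N → ℤ) (D : ℤ) : ℤ√D :=
  MvPolynomial.aeval (fun k => (⟨p k, q k⟩ : ℤ√D)) F

/-- the norm of the value of the form `F` of degree `d`, divided by the norm of the `d`-th power of
the ideal generated by the coordinates. -/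
noncomputable def nval {N : ℕ} (d : ℕ) (F : MvPolynomial (Fin N) ℤ) (p q : Fin N → ℤ) (D : ℤ) : ℤ :=
  (valD F p q D).norm / cont p q D ^ d

/-- a square root of `D`. -/
noncomputable def rt (D : ℤ) : ℂ := (D : ℂ) ^ (1 / 2 : ℂ)

/-- the square of the height of the point `(p k + q k √D)`. -/
noncomputable def H2 {N : ℕ} (p q : Fin N → ℤ) (D : ℤ) : ℝ :=
  ‖fun k => (p k : ℂ) + (q k : ℂ) * rt D‖ * ‖fun k => (p k : ℂ) - (q k : ℂ) * rt D‖ / cont p q D

/-- the coefficients of the restriction of `F` to the line through `u` and `v`. -/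
noncomputable def cf {N : ℕ} (d : ℕ) (u v : Fin N → ℤ) (F : MvPolynomial (Fin N) ℤ) :
    Fin (d + 1) → ℤ := fun i => (res u v F).coeff i

/-- the data of a quadratic point `x = p + q √D` on the line with the reduced basis `u`, `v`:
`x` is proportional to `θ u + v`, where `θ` is a root of `a X² + b X + e`. -/
structure Rep {n : ℕ} (p q : Fin (n + 2) → ℤ) (D : ℤ) (L : Fin n → Fin (n + 2) → ℤ)
    (u v : Fin (n + 2) → ℤ) (a b e f c0 s1 s2 t1 t2 : ℤ) : Prop where
  red : Reduced L u v
  ind : LinearIndependent ℚ (fun j => (fun k => (L j k : ℚ)))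
  quad : T3.Quad a b e f D
  cpos : 0 < c0
  hp : ∀ k, p k = s1 * u k + t1 * v k
  hq : ∀ k, q k = s2 * u k + t2 * v k
  he : s1 ^ 2 - D * s2 ^ 2 = c0 * e
  ha : t1 ^ 2 - D * t2 ^ 2 = c0 * a
  hb : 2 * (s1 * t1 - D * (s2 * t2)) = -(c0 * b)
  hc : cont p q D = c0

end Pool.Agent.Q256.T4
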