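import Mathlib
import Pool.Agent.Q256.T3.Dat
import Pool.Agent.Q256.T3.Main

set_option autoImplicit false

/-!
Counting the data attached to systems of forms and a quadratic point of a line.
-/

namespace Pool.Agent.Q256.T4

open Finset
open Pool.Agent.H813R3.Voj (rho rho_pos)
open Pool.Agent.Q256.VT (Tup card_tup)
open Pool.Agent.Q256.T3 (DS aS bS card_le_natCard card_bS sum_sym sum_D hroot)

/-- solutions of the norm equation. -/
noncomputable def yS (D k : ℤ) (B : ℕ) : Finset (ℤ × ℤ) :=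
  (Icc (-(B : ℤ)) B ×ˢ Icc (-(B : ℤ)) B).filter (fun p => p.1 ^ 2 - D * p.2 ^ 2 = k)

/-- the values. -/
noncomputable def xiS {t : ℕ} (J : Finset (Fin t)) (dg : Fin t → ℕ) (D a : ℤ) (m : Fin t → ℤ)
    (B : ℕ) : Finset (Fin t → ℤ × ℤ) :=
  Fintype.piFinset (fun i => if i ∈ J then yS D ((4 * a) ^ (dg i) * m i) B else {(0, 0)})

/-- the data. -/
noncomputable def Data {t : ℕ} (J : Finset (Fin t)) (dg : Fin t → ℕ) (S : Finset ℕ) (M B : ℕ)
    (X : Fin t → ℕ) (R : ℝ) :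
    Finset (Σ (_ : ℤ) (_ : Fin t → ℤ) (_ : ℤ) (_ : ℤ), ℤ × (Fin t → ℤ × ℤ)) :=
  (DS M).sigma fun D => (Tup S X (R / |(D : ℝ)|)).sigma fun m =>
    (Icc (1 : ℤ) ((3 * M : ℕ) : ℤ)).sigma fun f => (aS M).sigma fun a =>
      (bS M a (f ^ 2 * D)) ×ˢ (xiS J dg D a m B)

theorem card_yS (η : ℝ) (hη : 0 < η) :
    ∃ C : ℝ, 0 < C ∧ ∀ (D k : ℤ) (B : ℕ), Squarefree D → D ≠ 1 → k ≠ 0 → 1 ≤ B →
      (#(yS D k B) : ℝ) ≤ C * ((B : ℝ) * |(k : ℝ)| * |(D : ℝ)|) ^ η := by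
  classical
  obtain ⟨C, hC, h⟩ := Pool.Agent.Q184.T3.norm_eq_count η hη
  refine ⟨C, hC, fun D k B hD hD1 hk hB => le_trans ?_ (h D k B hD hD1 hk hB)⟩
  have hfin : Finite {p : ℤ × ℤ // p.1 ^ 2 - D * p.2 ^ 2 = k ∧ |p.1| ≤ B ∧ |p.2| ≤ B} := by
    refine Set.Finite.subset (s := ((Icc (-(B : ℤ)) B ×ˢ Icc (-(B : ℤ)) B : Finset (ℤ × ℤ)) :
      Set (ℤ × ℤ))) (finite_toSet _) ?_
    intro p hp
    rw [mem_coe, mem_product, mem_Icc, mem_Icc, ← abs_le, ← abs_le]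
    exact ⟨hp.2.1, hp.2.2⟩
  have h1 := card_le_natCard (yS D k B)
    (fun p : ℤ × ℤ => p.1 ^ 2 - D * p.2 ^ 2 = k ∧ |p.1| ≤ B ∧ |p.2| ≤ B) (by
      intro p hp
      rw [yS, mem_filter, mem_product, mem_Icc, mem_Icc, ← abs_le, ← abs_le] at hp
      exact ⟨hp.2, hp.1.1, hp.1.2⟩)
  exact_mod_cast h1

/-- **The number of data.** -/
theorem card_data {t : ℕ} (J : Finset (Fin t)) (dg : Fin t → ℕ) (S : Finset ℕ) (η : ℝ)
    (hη : 0 < η) : ∃ C : ℝ, 0 < C ∧ ∀ (M B : ℕ) (X : Fin t → ℕ) (R : ℝ), 1 ≤ M → 1 ≤ B →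
      (∀ i, 1 ≤ X i) → 0 ≤ R →
      (#(Data J dg S M B X R) : ℝ) ≤ C * R * M ^ 2 * ((M * B * ∏ i, X i : ℕ) : ℝ) ^ η := by
  classical
  set δ : ℕ := ∑ i, dg i with hδ
  set τ : ℝ := η / (3 + t * (δ + 3)) with hτ
  have hτ0 : 0 < τ := by positivity
  obtain ⟨Cm, hCm, hm⟩ := card_tup t S τ hτ0
  obtain ⟨Cx, hCx, hx⟩ := card_yS τ hτ0
  obtain ⟨CD, hCD, hD⟩ := sum_D τ hτ0
  obtain ⟨Cr, s, hCr, hs0, hs1, hs2⟩ := hroot τ hτ0
  refine ⟨Cm * CD * 3 * (2 * Cr) * ((Cx + 1) * (5 * 4 ^ δ) ^ τ) ^ t, by positivity,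
    fun M B X R hM hB hX hR => ?_⟩
  have hMr : (1 : ℝ) ≤ M := by exact_mod_cast hM
  have hBr : (1 : ℝ) ≤ B := by exact_mod_cast hB
  have hPX : 1 ≤ ∏ i, X i := Nat.one_le_iff_ne_zero.2 (prod_ne_zero_iff.2 (fun i _ => by
    have := hX i; omega))
  set W : ℝ := ((∏ i, X i : ℕ) : ℝ) with hW
  have hW1 : (1 : ℝ) ≤ W := by rw [hW]; exact_mod_cast hPX
  set L : ℝ := ((M * B * ∏ i, X i : ℕ) : ℝ) with hL
  have hLe : L = M * B * W := by rw [hL, hW, Nat.cast_mul, Nat.cast_mul]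
  have hL1 : 1 ≤ L := by
    rw [hLe]
    exact one_le_mul_of_one_le_of_one_le (one_le_mul_of_one_le_of_one_le hMr hBr) hW1
  have hL0 : (0 : ℝ) < L := by linarith
  have hML : (M : ℝ) ≤ L := by
    rw [hLe, mul_assoc]
    exact le_mul_of_one_le_right (by linarith) (one_le_mul_of_one_le_of_one_le hBr hW1)
  have hBL : (B : ℝ) ≤ L := by
    rw [hLe]
    calc (B : ℝ) ≤ M * B := le_mul_of_one_le_left (by linarith) hMr
      _ ≤ M * B * W := le_mul_of_one_le_right (by positivity) hW1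
  have hWL : W ≤ L := by
    rw [hLe]
    exact le_mul_of_one_le_left (by linarith) (one_le_mul_of_one_le_of_one_le hMr hBr)
  set E : ℝ := L ^ τ with hE
  have hE1 : 1 ≤ E := Real.one_le_rpow hL1 hτ0.le
  have hE0 : 0 < E := by linarith
  have hMt : (M : ℝ) ^ τ ≤ E := Real.rpow_le_rpow (by positivity) hML hτ0.le
  have hWt : W ^ τ ≤ E := Real.rpow_le_rpow (by positivity) hWL hτ0.le
  set E1 : ℝ := (Cx + 1) * (5 * 4 ^ δ) ^ τ * E ^ (δ + 3) with hE1d
  have hE11 : 1 ≤ E1 := by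
    have e1 : (1 : ℝ) ≤ Cx + 1 := by linarith
    have e2 : (1 : ℝ) ≤ (5 * 4 ^ δ) ^ τ := by
      refine Real.one_le_rpow ?_ hτ0.le
      have : (1 : ℝ) ≤ 4 ^ δ := one_le_pow₀ (by norm_num)
      linarith
    exact one_le_mul_of_one_le_of_one_le (one_le_mul_of_one_le_of_one_le e1 e2) (one_le_pow₀ hE1)
  have hE10 : 0 ≤ E1 := by linarith
  -- the values
  have hxi : ∀ D ∈ DS M, ∀ m ∈ Tup S X (R / |(D : ℝ)|), ∀ a ∈ aS M,
      (#(xiS J dg D a m B) : ℝ) ≤ E1 ^ t := by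
    intro D hDm m hmm a ham
    rw [DS, mem_filter, mem_Icc, ← abs_le] at hDm
    rw [Tup, mem_filter, Fintype.mem_piFinset] at hmm
    rw [aS, mem_filter, mem_Icc, ← abs_le] at ham
    unfold xiS
    rw [Fintype.card_piFinset]
    push_cast
    have h1 : ∀ i ∈ (univ : Finset (Fin t)),
        (#(if i ∈ J then yS D ((4 * a) ^ (dg i) * m i) B else {(0, 0)}) : ℝ) ≤ E1 := by
      intro i _
      split_ifs with hi
      · have hk : (4 * a) ^ (dg i) * m i ≠ 0 :=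
          mul_ne_zero (pow_ne_zero _ (mul_ne_zero (by norm_num) ham.2)) (hmm.2.1 i)
        refine (hx D _ B hDm.2.1 hDm.2.2 hk hB).trans ?_
        have hbase : (B : ℝ) * |(((4 * a) ^ (dg i) * m i : ℤ) : ℝ)| * |(D : ℝ)| ≤
            (5 * 4 ^ δ) * L ^ (δ + 3) := by
          have e1 : |(a : ℝ)| ≤ M := by exact_mod_cast ham.1
          have e2 : |(m i : ℝ)| ≤ W := by
            have h2 : |m i| ≤ X i := by
              have := mem_Icc.1 (hmm.1 i)
              rw [abs_le]; exact this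
            have h3 : X i ≤ ∏ i, X i := by
              refine Nat.le_of_dvd (by omega) (dvd_prod_of_mem _ (mem_univ i))
            have h4 : |(m i : ℝ)| ≤ X i := by exact_mod_cast h2
            have h5 : ((X i : ℕ) : ℝ) ≤ W := by rw [hW]; exact_mod_cast h3
            exact h4.trans h5
          have e3 : |(D : ℝ)| ≤ 5 * (M : ℝ) ^ 2 := by exact_mod_cast hDm.1
          have hdi : dg i ≤ δ := single_le_sum (f := dg) (fun _ _ => Nat.zero_le _) (mem_univ i)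
          push_cast
          rw [abs_mul, abs_pow, abs_mul, abs_of_pos (by norm_num : (0 : ℝ) < 4)]
          have e4 : (4 * |(a : ℝ)|) ^ (dg i) ≤ (4 * M) ^ δ :=
            (pow_le_pow_left₀ (by positivity) (by linarith) _).trans
              (pow_le_pow_right₀ (by linarith) hdi)
          calc (B : ℝ) * ((4 * |(a : ℝ)|) ^ (dg i) * |(m i : ℝ)|) * |(D : ℝ)|
              ≤ (B : ℝ) * ((4 * M) ^ δ * W) * (5 * (M : ℝ) ^ 2) := by
                refine mul_le_mul (mul_le_mul_of_nonneg_left (mul_le_mul e4 e2 (abs_nonneg _)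
                  (by positivity)) (by positivity)) e3 (abs_nonneg _) (by positivity)
            _ = (5 * 4 ^ δ) * ((M : ℝ) ^ (δ + 2) * B * W) := by ring
            _ ≤ (5 * 4 ^ δ) * L ^ (δ + 3) := by
                refine mul_le_mul_of_nonneg_left ?_ (by positivity)
                rw [hLe, mul_pow, mul_pow]
                have f0 : (M : ℝ) ^ (δ + 2) ≤ (M : ℝ) ^ (δ + 3) :=
                  pow_le_pow_right₀ hMr (by omega)
                have f1 : (B : ℝ) ≤ (B : ℝ) ^ (δ + 3) := le_self_pow₀ hBr (by omega)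
                have f2 : W ≤ W ^ (δ + 3) := le_self_pow₀ hW1 (by omega)
                exact mul_le_mul (mul_le_mul f0 f1 (by positivity) (by positivity)) f2
                  (by positivity) (by positivity)
        have h2 : ((B : ℝ) * |(((4 * a) ^ (dg i) * m i : ℤ) : ℝ)| * |(D : ℝ)|) ^ τ ≤
            (5 * 4 ^ δ) ^ τ * E ^ (δ + 3) := by
          refine (Real.rpow_le_rpow (by positivity) hbase hτ0.le).trans (le_of_eq ?_)
          rw [Real.mul_rpow (by positivity) (by positivity), hE,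
            ← Real.rpow_natCast (L ^ τ) (δ + 3), ← Real.rpow_natCast L (δ + 3),
            ← Real.rpow_mul hL0.le, ← Real.rpow_mul hL0.le, mul_comm τ]
        calc Cx * ((B : ℝ) * |(((4 * a) ^ (dg i) * m i : ℤ) : ℝ)| * |(D : ℝ)|) ^ τ
            ≤ (Cx + 1) * ((5 * 4 ^ δ) ^ τ * E ^ (δ + 3)) :=
              mul_le_mul (by linarith) h2 (by positivity) (by linarith)
          _ = E1 := by rw [hE1d]; ring
      · rw [card_singleton]
        exact_mod_cast hE11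
    refine (prod_le_prod (fun _ _ => Nat.cast_nonneg _) h1).trans ?_
    rw [prod_const, card_univ, Fintype.card_fin]
  have step1 : ∀ D ∈ DS M, ∀ m ∈ Tup S X (R / |(D : ℝ)|), ∀ f ∈ Icc (1 : ℤ) ((3 * M : ℕ) : ℤ),
      ∑ a ∈ aS M, (#((bS M a (f ^ 2 * D)) ×ˢ (xiS J dg D a m B)) : ℝ) ≤
        2 * Cr * (M * E) * E1 ^ t := by
    intro D hDm m hmm f _
    have h1 : ∀ a ∈ aS M, (#((bS M a (f ^ 2 * D)) ×ˢ (xiS J dg D a m B)) : ℝ) ≤
        s M a.natAbs * E1 ^ t := by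
      intro a ha
      rw [card_product]
      push_cast
      have ha0 : a ≠ 0 := by
        have := ha
        rw [aS, mem_filter] at this
        exact this.2
      exact mul_le_mul (card_bS s hs1 M a _ ha0) (hxi D hDm m hmm a ha) (Nat.cast_nonneg _)
        (hs0 _ _)
    refine (sum_le_sum h1).trans ?_
    rw [← sum_mul]
    refine mul_le_mul_of_nonneg_right ?_ (by positivity)
    refine (sum_sym M (fun n => s M n) (fun n => hs0 M n)).trans ?_
    rw [mul_assoc]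
    refine mul_le_mul_of_nonneg_left ?_ (by norm_num)
    refine (hs2 M hM).trans (mul_le_mul_of_nonneg_left ?_ hCr.le)
    rw [Real.rpow_add (by linarith), Real.rpow_one]
    exact mul_le_mul_of_nonneg_left hMt (by positivity)
  set K : ℝ := 2 * Cr * (M * E) * E1 ^ t with hK
  have hK0 : 0 ≤ K := by positivity
  have step2 : ∀ D ∈ DS M, ∀ m ∈ Tup S X (R / |(D : ℝ)|),
      ∑ f ∈ Icc (1 : ℤ) ((3 * M : ℕ) : ℤ),
        ∑ a ∈ aS M, (#((bS M a (f ^ 2 * D)) ×ˢ (xiS J dg D a m B)) : ℝ) ≤ 3 * M * K := by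
    intro D hDm m hmm
    have h1 := sum_le_card_nsmul _ _ _ (step1 D hDm m hmm)
    rw [nsmul_eq_mul, Int.card_Icc] at h1
    have h2 : ((((3 * M : ℕ) : ℤ) + 1 - 1).toNat : ℝ) = 3 * M := by
      have : (((3 * M : ℕ) : ℤ) + 1 - 1).toNat = 3 * M := by omega
      rw [this]
      push_cast
      ring
    rw [h2] at h1
    exact h1
  have step3 : ∀ D ∈ DS M, ∑ m ∈ Tup S X (R / |(D : ℝ)|),
      ∑ f ∈ Icc (1 : ℤ) ((3 * M : ℕ) : ℤ),
        ∑ a ∈ aS M, (#((bS M a (f ^ 2 * D)) ×ˢ (xiS J dg D a m B)) : ℝ) ≤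
        Cm * R * E * (3 * M * K) * (1 / |(D : ℝ)|) := by
    intro D hDm
    have h1 := sum_le_card_nsmul _ _ _ (step2 D hDm)
    rw [nsmul_eq_mul] at h1
    refine h1.trans ?_
    rw [DS, mem_filter] at hDm
    have hD0 : 0 < |(D : ℝ)| := abs_pos.2 (by exact_mod_cast hDm.2.1.ne_zero)
    have h2 := hm X (R / |(D : ℝ)|) hX (by positivity)
    rw [← hW] at h2
    calc (#(Tup S X (R / |(D : ℝ)|)) : ℝ) * (3 * M * K)
        ≤ (Cm * (R / |(D : ℝ)|) * W ^ τ) * (3 * M * K) :=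
          mul_le_mul_of_nonneg_right h2 (by positivity)
      _ ≤ (Cm * (R / |(D : ℝ)|) * E) * (3 * M * K) := by
          refine mul_le_mul_of_nonneg_right
            (mul_le_mul_of_nonneg_left hWt (by positivity)) (by positivity)
      _ = _ := by ring
  have hcard : (#(Data J dg S M B X R) : ℝ) = ∑ D ∈ DS M, ∑ m ∈ Tup S X (R / |(D : ℝ)|),
      ∑ f ∈ Icc (1 : ℤ) ((3 * M : ℕ) : ℤ),
        ∑ a ∈ aS M, (#((bS M a (f ^ 2 * D)) ×ˢ (xiS J dg D a m B)) : ℝ) := by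
    unfold Data
    rw [card_sigma]
    push_cast
    refine sum_congr rfl (fun D _ => ?_)
    rw [card_sigma]
    push_cast
    refine sum_congr rfl (fun m _ => ?_)
    rw [card_sigma]
    push_cast
    refine sum_congr rfl (fun f _ => ?_)
    rw [card_sigma]
    push_cast
    rfl
  rw [hcard]
  refine (sum_le_sum step3).trans ?_
  rw [← mul_sum]
  refine (mul_le_mul_of_nonneg_left ((hD M hM).trans (mul_le_mul_of_nonneg_left hMt hCD.le))
    (by positivity)).trans (le_of_eq ?_)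
  have hLη : L ^ η = E ^ 3 * (E ^ (δ + 3)) ^ t := by
    rw [← pow_mul, ← pow_add, hE, ← Real.rpow_natCast (L ^ τ) _, ← Real.rpow_mul hL0.le]
    congr 1
    rw [hτ]
    push_cast
    field_simp
  rw [hLη, hK, hE1d, mul_pow _ (E ^ (δ + 3))]
  ring

end Pool.Agent.Q256.T4
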