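import Mathlib
import Pool.Agent.Q256.T4.Def
import Pool.Agent.Q256.LN.Gel

set_option autoImplicit false

/-!
The number of forms with a given value at a quadratic point of a line.
-/

namespace Pool.Agent.Q256.T4

open Finset
open Pool.Agent.Q256.CI
open Pool.Agent.Q256.LN
open Pool.Agent.Q256.T3 (P P_coeff P_deg P_inj P_sub G G_coeff G_natDegree G_dvd Quad xi same_value
  exists_sqrt root)

/-- **The fibres for binary forms.** -/
theorem fibreW {d : ℕ} (U V : ℕ) (hU : 1 ≤ U) (hUV : U ≤ V) (R0 K G0 : ℝ) (hG0 : 0 < G0) (hK1 : 1 ≤ K) (hK : 2 ^ (d + 1) * (d + 1) * R0 ≤ K * G0)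
    {a b e f D : ℤ} (h : Quad a b e f D)
    (hbig : ∃ i, i ≤ 2 ∧ G0 * ((U : ℝ) ^ i * (V : ℝ) ^ (2 - i)) ≤ |((G a b e).coeff i : ℝ)|)
    (x : ℤ√D) (A : Finset (Fin (d + 1) → ℤ))
    (hA : ∀ c ∈ A, (∀ i : Fin (d + 1), |(c i : ℝ)| ≤ R0 * (U : ℝ) ^ (i : ℕ) * (V : ℝ) ^ (d - i)) ∧
      xi c a b f D = x) :
    (#A : ℝ) ≤ (3 * K) ^ (d - 1) * ((U : ℝ) * V) ^ ((d - 2) * (d - 1) / 2) := by
  classical
  obtain ⟨r, hr⟩ := exists_sqrt D
  have hUr : (1 : ℝ) ≤ U := by exact_mod_cast hU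
  have hUVr : (U : ℝ) ≤ V := by exact_mod_cast hUV
  have hVr : (1 : ℝ) ≤ V := by linarith
  have hU0 : (0 : ℝ) < U := by linarith
  have hV0 : (0 : ℝ) < V := by linarith
  rcases A.eq_empty_or_nonempty with h0 | ⟨c0, hc0⟩
  · subst h0
    simp only [card_empty, Nat.cast_zero]
    positivity
  -- the quotients
  have key : ∀ c : Fin (d + 1) → ℤ, ∃ q : Polynomial ℤ, c ∈ A → P c - P c0 = G a b e * q := by
    intro c
    by_cases hc : c ∈ A
    · have h1 := same_value c c0 h (by rw [(hA c hc).2, (hA c0 hc0).2]) r hr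
      rw [← P_sub] at h1
      obtain ⟨q, hq⟩ := G_dvd h r hr _ h1
      exact ⟨q, fun _ => hq⟩
    · exact ⟨0, fun h => absurd h hc⟩
  choose q hq using key
  have hG00 : G a b e ≠ 0 := by
    intro h0
    have := G_natDegree a b e h.a0
    rw [h0] at this
    simp at this
  have hqdeg : ∀ c ∈ A, (q c).natDegree ≤ d - 2 ∧ (d < 2 → q c = 0) := by
    intro c hc
    by_cases hq0 : q c = 0
    · rw [hq0]; simp
    have h1 : (P c - P c0).natDegree ≤ d := by rw [P_sub]; exact P_deg _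
    rw [hq c hc, Polynomial.natDegree_mul hG00 hq0, G_natDegree a b e h.a0] at h1
    exact ⟨by omega, fun h2 => by omega⟩
  -- the case of small degree
  rcases Nat.lt_or_ge d 2 with hd2 | hd2
  · have h1 : #A ≤ 1 := by
      rw [card_le_one]
      have h2 : ∀ c ∈ A, c = c0 := by
        intro c hc
        have h3 := hq c hc
        rw [(hqdeg c hc).2 hd2, mul_zero, sub_eq_zero] at h3
        exact P_inj h3
      intro c hc c' hc'
      rw [h2 c hc, h2 c' hc']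
    have h2 : d - 1 = 0 := by omega
    rw [h2, pow_zero, mul_zero, Nat.zero_div, pow_zero, mul_one]
    exact_mod_cast h1
  -- the coefficients of the quotients
  have hcoef : ∀ c ∈ A, ∀ j, j ≤ d - 2 →
      |((q c).coeff j : ℝ)| ≤ K * (U : ℝ) ^ j * (V : ℝ) ^ (d - 2 - j) := by
    intro c hc j hj
    have hW : WBd U V (2 + (d - 2)) (2 * R0) (G a b e * q c) := by
      rw [← hq c hc, P_sub]
      constructor
      · intro i hi
        have hi' : i < d + 1 := by omega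
        rw [P_coeff, dif_pos hi', Pi.sub_apply]
        have h1 := (hA c hc).1 ⟨i, hi'⟩
        have h2 := (hA c0 hc0).1 ⟨i, hi'⟩
        simp only at h1 h2
        rw [show 2 + (d - 2) = d by omega]
        push_cast
        exact (abs_sub _ _).trans (by linarith)
      · intro i hi
        rw [P_coeff, dif_neg (by omega)]
    obtain ⟨i, hi, hie⟩ := hbig
    have h1 := gelfond U V hU (hU.trans hUV) 2 (d - 2) (2 * R0) (G a b e) (q c)
      (G_natDegree a b e h.a0).le (hqdeg c hc).1 hW i j hi hj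
    have h2 : 2 + (d - 2) = d := by omega
    rw [h2] at h1
    have hw : 0 < (U : ℝ) ^ i * (V : ℝ) ^ (2 - i) := by positivity
    have h3 : G0 * ((U : ℝ) ^ i * (V : ℝ) ^ (2 - i)) * |((q c).coeff j : ℝ)| ≤
        K * G0 * ((U : ℝ) ^ i * (V : ℝ) ^ (2 - i) * ((U : ℝ) ^ j * (V : ℝ) ^ (d - 2 - j))) := by
      refine (mul_le_mul_of_nonneg_right hie (abs_nonneg _)).trans (h1.trans ?_)
      refine mul_le_mul_of_nonneg_right ?_ (by positivity)
      refine le_trans (le_of_eq ?_) hK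
      ring
    have h4 : (G0 * ((U : ℝ) ^ i * (V : ℝ) ^ (2 - i))) * |((q c).coeff j : ℝ)| ≤
        (G0 * ((U : ℝ) ^ i * (V : ℝ) ^ (2 - i))) * (K * (U : ℝ) ^ j * (V : ℝ) ^ (d - 2 - j)) := by
      refine h3.trans (le_of_eq ?_)
      ring
    exact le_of_mul_le_mul_left h4 (by positivity)
  let X : Fin (d - 2 + 1) → ℕ := fun j => ⌊K * (U : ℝ) ^ (j : ℕ) * (V : ℝ) ^ (d - 2 - j)⌋₊
  have h1 : #A ≤ #(Fintype.piFinset (fun j => Icc (-(X j : ℤ)) (X j))) := by
    refine card_le_card_of_injOn (fun c j => (q c).coeff j) ?_ ?_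
    · intro c hc
      rw [mem_coe] at hc
      rw [mem_coe, Fintype.mem_piFinset]
      intro j
      rw [mem_Icc, ← abs_le]
      have h2 := hcoef c hc j (by have := j.2; omega)
      rw [Int.abs_eq_natAbs]
      have h3 : ((q c).coeff (j : ℕ)).natAbs ≤ X j := by
        refine Nat.le_floor ?_
        rw [Nat.cast_natAbs, Int.cast_abs]
        exact h2
      exact_mod_cast h3
    · intro c hc c' hc' hcc
      rw [mem_coe] at hc hc'
      have h5 : q c = q c' := by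
        refine Polynomial.ext (fun j => ?_)
        rcases Nat.lt_or_ge j (d - 2 + 1) with hj | hj
        · exact congrFun hcc ⟨j, hj⟩
        · rw [Polynomial.coeff_eq_zero_of_natDegree_lt (by have := (hqdeg c hc).1; omega),
            Polynomial.coeff_eq_zero_of_natDegree_lt (by have := (hqdeg c' hc').1; omega)]
      have h6 : P c - P c0 = P c' - P c0 := by rw [hq c hc, hq c' hc', h5]
      exact P_inj (sub_left_injective h6)
  have h2 : (#(Fintype.piFinset (fun j => Icc (-(X j : ℤ)) (X j))) : ℝ) ≤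
      ∏ j : Fin (d - 2 + 1), (3 * K * (U : ℝ) ^ (j : ℕ) * (V : ℝ) ^ (d - 2 - j)) := by
    rw [Fintype.card_piFinset]
    push_cast
    refine prod_le_prod (fun _ _ => Nat.cast_nonneg _) (fun j _ => ?_)
    rw [Int.card_Icc]
    have h3 : (((X j : ℤ) + 1 - -(X j : ℤ)).toNat : ℝ) = 2 * (X j : ℝ) + 1 := by
      have : ((X j : ℤ) + 1 - -(X j : ℤ)).toNat = 2 * X j + 1 := by omega
      rw [this]
      push_cast
      ring
    rw [h3]
    have h4 : (X j : ℝ) ≤ K * (U : ℝ) ^ (j : ℕ) * (V : ℝ) ^ (d - 2 - j) :=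
      Nat.floor_le (by positivity)
    have h5 : (1 : ℝ) ≤ K * (U : ℝ) ^ (j : ℕ) * (V : ℝ) ^ (d - 2 - j) :=
      one_le_mul_of_one_le_of_one_le (one_le_mul_of_one_le_of_one_le hK1 (one_le_pow₀ hUr))
        (one_le_pow₀ hVr)
    linarith
  rw [prod_weights] at h2
  have h3 : d - 2 + 1 = d - 1 := by omega
  have h4 : (#A : ℝ) ≤ (3 * K) ^ (d - 2 + 1) * ((U : ℝ) * V) ^ ((d - 2) * (d - 2 + 1) / 2) :=
    le_trans (by exact_mod_cast h1) h2
  rw [h3] at h4
  exact h4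

/-- the exponents. -/
theorem half_id2 (d : ℕ) (hd : 1 ≤ d) :
    (d - 1) + (d - 2) * (d - 1) / 2 + d = d * (d + 1) / 2 := by
  rcases d with _ | _ | d
  · omega
  · rfl
  · have h1 := Nat.div_mul_cancel (Nat.even_mul_succ_self d).two_dvd
    have h2 := Nat.div_mul_cancel (Nat.even_mul_succ_self (d + 1 + 1)).two_dvd
    have e1 : d + 1 + 1 - 1 = d + 1 := by omega
    have e2 : d + 1 + 1 - 2 = d := by omega
    rw [e1, e2]
    have h4 : (d + 1 + 1) * (d + 1 + 1 + 1) = d * (d + 1) + 2 * (2 * d + 3) := by ring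
    omega

theorem cf_inj {n d T : ℕ} (u v : Fin (n + 2) → ℤ) (F F' : MvPolynomial (Fin (n + 2)) ℤ)
    (hF : F ∈ Box (n + 1) d T) (hF' : F' ∈ Box (n + 1) d T) (h : cf d u v F = cf d u v F') :
    res u v F = res u v F' := by
  refine Polynomial.ext (fun j => ?_)
  rcases Nat.lt_or_ge j (d + 1) with hj | hj
  · exact congrFun h ⟨j, hj⟩
  · rw [(res_wbd u v F hF).2 j (by omega), (res_wbd u v F' hF').2 j (by omega)]

/-- the constant of `fibreF`. -/
noncomputable def KF (n d : ℕ) : ℝ :=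
  (3 * (2 ^ (d + 2) * (d + 1) * (((n + 1 + d).choose (n + 1) : ℝ) * 2 ^ d))) ^ (d - 1) *
    (KL n d + 1)

theorem KF_pos (n d : ℕ) : 0 < KF n d := by
  unfold KF
  have h1 := KL_nonneg n d
  have h2 : (0 : ℝ) < ((n + 1 + d).choose (n + 1) : ℝ) := by
    exact_mod_cast Nat.choose_pos (Nat.le_add_right _ _)
  positivity

/-- the size of the quadratic polynomial on the line. -/
def gm (U V : ℕ) (a b e : ℤ) : ℕ :=
  max (a.natAbs * V ^ 2) (max (b.natAbs * (U * V)) (e.natAbs * U ^ 2))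

theorem le_gm (U V : ℕ) (a b e : ℤ) : a.natAbs * V ^ 2 ≤ gm U V a b e ∧
    b.natAbs * (U * V) ≤ gm U V a b e ∧ e.natAbs * U ^ 2 ≤ gm U V a b e := by
  unfold gm
  exact ⟨le_max_left _ _, (le_max_left _ _).trans (le_max_right _ _),
    (le_max_right _ _).trans (le_max_right _ _)⟩

/-- **The fibres.** -/
theorem fibreF {n d : ℕ} (hd : 1 ≤ d) {L : Fin n → Fin (n + 2) → ℤ} {u v : Fin (n + 2) → ℤ}
    (hr : Reduced L u v) (hind : LinearIndependent ℚ (fun j => (fun k => (L j k : ℚ)))) (T M : ℕ)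
    (hT : 1 ≤ T) (hL : ∀ j k, |L j k| ≤ T) (hM : 1 ≤ M) (hMT : M * (qq u * qq v) ≤ T)
    {a b e f D : ℤ} (h : Quad a b e f D) (hg : M * (qq u * qq v) ≤ 2 * gm (qq u) (qq v) a b e)
    (x : ℤ√D) (B : Finset (MvPolynomial (Fin (n + 2)) ℤ))
    (hB : ∀ F ∈ B, F ∈ Box (n + 1) d T ∧ xi (cf d u v F) a b f D = x) :
    (#B : ℝ) ≤ KF n d * ((T : ℝ) ^ ((n + 1 + d).choose (n + 1)) * M /
      ((T : ℝ) ^ 2 * ((M : ℝ) * (((qq u : ℕ) : ℝ) * ((qq v : ℕ) : ℝ))) ^ d)) := by
  classical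
  have hTr : (1 : ℝ) ≤ T := by exact_mod_cast hT
  have hT0 : (0 : ℝ) < T := by linarith
  have hMr : (1 : ℝ) ≤ M := by exact_mod_cast hM
  have hM0 : (0 : ℝ) < M := by linarith
  have hU := qq_pos u hr.u0
  have hUV := hr.le
  have hV : 1 ≤ qq v := hU.trans hUV
  have hUr : (1 : ℝ) ≤ ((qq u : ℕ) : ℝ) := by exact_mod_cast hU
  have hVr : (1 : ℝ) ≤ ((qq v : ℕ) : ℝ) := by exact_mod_cast hV
  have hMTr : (M : ℝ) * (((qq u : ℕ) : ℝ) * ((qq v : ℕ) : ℝ)) ≤ T := by exact_mod_cast hMT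
  have hgr : (M : ℝ) * (((qq u : ℕ) : ℝ) * ((qq v : ℕ) : ℝ)) ≤
      2 * (gm (qq u) (qq v) a b e : ℝ) := by exact_mod_cast hg
  have hg3 : (gm (qq u) (qq v) a b e : ℝ) = |(a : ℝ)| * ((qq v : ℕ) : ℝ) ^ 2 ∨
      (gm (qq u) (qq v) a b e : ℝ) = |(b : ℝ)| * (((qq u : ℕ) : ℝ) * ((qq v : ℕ) : ℝ)) ∨
      (gm (qq u) (qq v) a b e : ℝ) = |(e : ℝ)| * ((qq u : ℕ) : ℝ) ^ 2 := by
    have h3 : gm (qq u) (qq v) a b e = a.natAbs * qq v ^ 2 ∨
        gm (qq u) (qq v) a b e = b.natAbs * (qq u * qq v) ∨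
        gm (qq u) (qq v) a b e = e.natAbs * qq u ^ 2 := by
      unfold gm
      rcases max_choice (a.natAbs * qq v ^ 2) (max (b.natAbs * (qq u * qq v))
        (e.natAbs * qq u ^ 2)) with h4 | h4
      · exact Or.inl h4
      · rcases max_choice (b.natAbs * (qq u * qq v)) (e.natAbs * qq u ^ 2) with h5 | h5
        · exact Or.inr (Or.inl (h4.trans h5))
        · exact Or.inr (Or.inr (h4.trans h5))
    rcases h3 with h4 | h4 | h4
    · left; rw [h4]; push_cast [Nat.cast_natAbs]; rfl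
    · right; left; rw [h4]; push_cast [Nat.cast_natAbs]; rfl
    · right; right; rw [h4]; push_cast [Nat.cast_natAbs]; rfl
  set U : ℝ := ((qq u : ℕ) : ℝ) with hUdef
  set V : ℝ := ((qq v : ℕ) : ℝ) with hVdef
  have hU0 : 0 < U := by linarith
  have hV0 : 0 < V := by linarith
  set N : ℕ := (n + 1 + d).choose (n + 1) with hN
  have hN1 : 1 ≤ N := Nat.choose_pos (Nat.le_add_right _ _)
  have hNr : (1 : ℝ) ≤ N := by exact_mod_cast hN1
  set R0 : ℝ := N * (T * 2 ^ d) with hR0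
  have hR00 : 0 ≤ R0 := by positivity
  set K0 : ℝ := 2 ^ (d + 2) * (d + 1) * ((N : ℝ) * 2 ^ d) with hK0
  have hK01 : 1 ≤ K0 := by
    have e1 : (1 : ℝ) ≤ 2 ^ (d + 2) := one_le_pow₀ (by norm_num)
    have e2 : (1 : ℝ) ≤ (d : ℝ) + 1 := by
      have : (0 : ℝ) ≤ d := Nat.cast_nonneg _
      linarith
    have e3 : (1 : ℝ) ≤ 2 ^ d := one_le_pow₀ (by norm_num)
    exact one_le_mul_of_one_le_of_one_le (one_le_mul_of_one_le_of_one_le e1 e2)
      (one_le_mul_of_one_le_of_one_le hNr e3)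
  set K : ℝ := K0 * (T * (U * V) / M) with hK
  have hUV1 : 1 ≤ U * V := one_le_mul_of_one_le_of_one_le hUr hVr
  have hK1 : 1 ≤ K := by
    refine one_le_mul_of_one_le_of_one_le hK01 ?_
    rw [le_div_iff₀ hM0, one_mul]
    have : (M : ℝ) ≤ M * (U * V) := le_mul_of_one_le_right hM0.le hUV1
    calc (M : ℝ) ≤ T := this.trans hMTr
      _ ≤ T * (U * V) := le_mul_of_one_le_right hT0.le hUV1
  set G0 : ℝ := M / (2 * (U * V)) with hG0
  have hG00 : 0 < G0 := by positivity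
  -- the restrictions
  set 𝒞 : Finset (Fin (d + 1) → ℤ) := B.image (cf d u v) with h𝒞
  have h1 : (#𝒞 : ℝ) ≤ (3 * K) ^ (d - 1) * (U * V) ^ ((d - 2) * (d - 1) / 2) := by
    refine fibreW (qq u) (qq v) hU hUV R0 K G0 hG00 hK1 ?_ h ?_ x 𝒞 ?_
    · refine le_of_eq ?_
      rw [hK, hG0, hK0, hR0]
      field_simp
      ring
    · rcases hg3 with h4 | h4 | h4
      · refine ⟨2, le_rfl, ?_⟩
        rw [h4] at hgr
        rw [← hUdef, ← hVdef, G_coeff, if_neg (by norm_num), if_neg (by norm_num), if_pos rfl, hG0,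
          Nat.sub_self, pow_zero, mul_one, div_mul_eq_mul_div, div_le_iff₀ (by positivity)]
        have h6 : (M : ℝ) * U ^ 2 * V ≤ |(a : ℝ)| * (2 * (U * V)) * V := by
          calc (M : ℝ) * U ^ 2 * V = U * (M * (U * V)) := by ring
            _ ≤ U * (2 * (|(a : ℝ)| * V ^ 2)) := mul_le_mul_of_nonneg_left hgr hU0.le
            _ = _ := by ring
        exact le_of_mul_le_mul_right h6 hV0
      · refine ⟨1, by norm_num, ?_⟩
        rw [h4] at hgr
        rw [← hUdef, ← hVdef, G_coeff, if_neg (by norm_num), if_pos rfl, hG0, pow_one,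
          div_mul_eq_mul_div, div_le_iff₀ (by positivity)]
        have h6 : (2 : ℕ) - 1 = 1 := rfl
        rw [h6, pow_one]
        calc (M : ℝ) * (U * V) ≤ 2 * (|(b : ℝ)| * (U * V)) := hgr
          _ = _ := by ring
      · refine ⟨0, by norm_num, ?_⟩
        rw [h4] at hgr
        rw [← hUdef, ← hVdef, G_coeff, if_pos rfl, hG0, pow_zero, one_mul, Nat.sub_zero,
          div_mul_eq_mul_div, div_le_iff₀ (by positivity)]
        have h6 : (M : ℝ) * V ^ 2 * U ≤ |(e : ℝ)| * (2 * (U * V)) * U := by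
          calc (M : ℝ) * V ^ 2 * U = V * (M * (U * V)) := by ring
            _ ≤ V * (2 * (|(e : ℝ)| * U ^ 2)) := mul_le_mul_of_nonneg_left hgr hV0.le
            _ = _ := by ring
        exact le_of_mul_le_mul_right h6 hU0
    · intro c hc
      obtain ⟨F, hF, rfl⟩ := mem_image.1 hc
      refine ⟨fun i => ?_, (hB F hF).2⟩
      exact (res_wbd u v F (hB F hF).1).1 i (Nat.lt_succ_iff.1 i.2)
  -- the fibres
  have h2 : ∀ c ∈ 𝒞, (#{F ∈ B | cf d u v F = c} : ℝ) ≤
      KL n d * (T : ℝ) ^ N / ((U * V) ^ (d * (d + 1) / 2) * (T : ℝ) ^ (d + 1)) := by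
    intro c hc
    obtain ⟨F0, hF0, rfl⟩ := mem_image.1 hc
    have h3 : (#{F ∈ B | cf d u v F = cf d u v F0} : ℝ) ≤ Nat.card (VanL d T u v (res u v F0)) := by
      rw [Nat.card_coe_set_eq, Set.ncard_eq_toFinset_card _ (finite_vanL d T u v (res u v F0))]
      have h4 : B.filter (fun F => cf d u v F = cf d u v F0) ⊆
          (finite_vanL d T u v (res u v F0)).toFinset := by
        intro F hF
        rw [mem_filter] at hF
        rw [Set.Finite.mem_toFinset]
        exact ⟨(hB F hF.1).1, cf_inj u v F F0 (hB F hF.1).1 (hB F0 hF0).1 hF.2⟩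
      exact_mod_cast card_le_card h4
    have h4 := countL_real hr hind T hT hL d T le_rfl (res u v F0)
    refine h3.trans ?_
    rw [le_div_iff₀ (by positivity), ← mul_assoc]
    exact h4
  have hcard : (#B : ℝ) = ∑ c ∈ 𝒞, (#{F ∈ B | cf d u v F = c} : ℝ) := by
    have := card_eq_sum_card_image (cf d u v) B
    exact_mod_cast this
  have h3 : (#B : ℝ) ≤ #𝒞 *
      (KL n d * (T : ℝ) ^ N / ((U * V) ^ (d * (d + 1) / 2) * (T : ℝ) ^ (d + 1))) := by
    rw [hcard]
    refine (sum_le_sum h2).trans ?_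
    rw [sum_const, nsmul_eq_mul]
  have hKL := KL_nonneg n d
  refine h3.trans ((mul_le_mul_of_nonneg_right h1 (by positivity)).trans ?_)
  have hid := half_id2 d hd
  have e1 : (U * V) ^ (d * (d + 1) / 2) =
      (U * V) ^ (d - 1) * (U * V) ^ ((d - 2) * (d - 1) / 2) * (U * V) ^ d := by
    rw [← pow_add, ← pow_add, hid]
  have e2 : (T : ℝ) ^ (d + 1) = (T : ℝ) ^ (d - 1) * (T : ℝ) ^ 2 := by
    rw [← pow_add]; congr 1; omega
  have e3 : ((M : ℝ) * (U * V)) ^ d = (M : ℝ) ^ (d - 1) * M * (U * V) ^ d := by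
    rw [mul_pow, ← pow_succ]; congr 2; omega
  have e4 : (3 * K) ^ (d - 1) = (3 * K0) ^ (d - 1) * ((T : ℝ) ^ (d - 1) * (U * V) ^ (d - 1) /
      (M : ℝ) ^ (d - 1)) := by
    have : 3 * K = (3 * K0) * ((T * (U * V)) / M) := by rw [hK]; ring
    rw [this, mul_pow (3 * K0), div_pow, mul_pow (T : ℝ) (U * V)]
  have h5 : (3 * K) ^ (d - 1) * (U * V) ^ ((d - 2) * (d - 1) / 2) *
      (KL n d * (T : ℝ) ^ N / ((U * V) ^ (d * (d + 1) / 2) * (T : ℝ) ^ (d + 1))) =
      (3 * K0) ^ (d - 1) * KL n d * ((T : ℝ) ^ N * M /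
      ((T : ℝ) ^ 2 * ((M : ℝ) * (U * V)) ^ d)) := by
    rw [e1, e2, e3, e4]
    field_simp
  rw [h5]
  refine mul_le_mul_of_nonneg_right ?_ (by positivity)
  unfold KF
  rw [← hN, ← hK0]
  exact mul_le_mul_of_nonneg_left (by linarith) (by positivity)

end Pool.Agent.Q256.T4
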