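import Mathlib
import Pool.Agent.Q256.T4.Fib
import Pool.Agent.Q256.T4.Dat

set_option autoImplicit false

/-!
Counting the systems of forms with bad values at some quadratic point of a line.
-/

namespace Pool.Agent.Q256.T4

open Finset
open Pool.Agent.H813R3.Voj (rho rho_pos)
open Pool.Agent.Q256.CI
open Pool.Agent.Q256.LN (res res_wbd)
open Pool.Agent.Q256.VT (Tup)
open Pool.Agent.Q256.T3 (Quad Res xi norm_eq not_sq DS aS bS)

/-- a system of forms, and a quadratic point on the line through `u` and `v`. -/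
def Lbad {n t : ℕ} (J : Finset (Fin t)) (dg : Fin t → ℕ) (S : Finset ℕ) (T M : ℕ) (R : ℝ)
    (u v : Fin (n + 2) → ℤ) (F : Fin t → MvPolynomial (Fin (n + 2)) ℤ) : Prop :=
  (∀ i, F i ∈ Box (n + 1) (dg i) T) ∧ ∃ a b e f D : ℤ, Quad a b e f D ∧
    gm (qq u) (qq v) a b e ≤ M * (qq u * qq v) ∧ M * (qq u * qq v) ≤ 2 * gm (qq u) (qq v) a b e ∧
    (∀ i, i ∉ J → Res (cf (dg i) u v (F i)) a b e = 0) ∧
    (∀ i, i ∈ J → Res (cf (dg i) u v (F i)) a b e ≠ 0) ∧
    (rho S (∏ i, if i ∈ J then Res (cf (dg i) u v (F i)) a b e else 1) : ℝ) * |(D : ℝ)| ≤ R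

/-- bounds for the coefficients. -/
theorem sizes {U V M : ℕ} (hU : 1 ≤ U) (hUV : U ≤ V) {a b e f D : ℤ} (h : Quad a b e f D)
    (hg : gm U V a b e ≤ M * (U * V)) :
    |a| ≤ M ∧ |b| ≤ M ∧ |e| ≤ ((M * V : ℕ) : ℤ) ∧ |D| ≤ ((5 * M ^ 2 : ℕ) : ℤ) ∧
      f ≤ ((3 * M : ℕ) : ℤ) := by
  obtain ⟨g1, g2, g3⟩ := le_gm U V a b e
  have hV : 1 ≤ V := hU.trans hUV
  have k1 : a.natAbs * V ^ 2 ≤ M * (U * V) := g1.trans hg
  have k2 : b.natAbs * (U * V) ≤ M * (U * V) := g2.trans hg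
  have k3 : e.natAbs * U ^ 2 ≤ M * (U * V) := g3.trans hg
  have ka : a.natAbs * V ≤ M * U := by
    have : a.natAbs * V * V ≤ M * U * V := by
      calc a.natAbs * V * V = a.natAbs * V ^ 2 := by ring
        _ ≤ M * (U * V) := k1
        _ = M * U * V := by ring
    exact Nat.le_of_mul_le_mul_right this hV
  have kb : b.natAbs ≤ M := Nat.le_of_mul_le_mul_right k2 (Nat.mul_pos hU hV)
  have ke : e.natAbs * U ≤ M * V := by
    have : e.natAbs * U * U ≤ M * V * U := by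
      calc e.natAbs * U * U = e.natAbs * U ^ 2 := by ring
        _ ≤ M * (U * V) := k3
        _ = M * V * U := by ring
    exact Nat.le_of_mul_le_mul_right this hU
  have ka' : a.natAbs ≤ M := by
    have : a.natAbs * V ≤ M * V := ka.trans (Nat.mul_le_mul_left _ hUV)
    exact Nat.le_of_mul_le_mul_right this hV
  have ke' : e.natAbs ≤ M * V := (Nat.le_mul_of_pos_right _ hU).trans ke
  have kae : a.natAbs * e.natAbs ≤ M ^ 2 := by
    have h1 : (a.natAbs * V) * (e.natAbs * U) ≤ (M * U) * (M * V) := Nat.mul_le_mul ka ke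
    have h2 : (a.natAbs * e.natAbs) * (U * V) ≤ M ^ 2 * (U * V) := by
      calc (a.natAbs * e.natAbs) * (U * V) = (a.natAbs * V) * (e.natAbs * U) := by ring
        _ ≤ (M * U) * (M * V) := h1
        _ = M ^ 2 * (U * V) := by ring
    exact Nat.le_of_mul_le_mul_right h2 (Nat.mul_pos hU hV)
  have hfD : f ^ 2 * |D| ≤ 5 * (M : ℤ) ^ 2 := by
    have h0 : f ^ 2 * |D| = |b ^ 2 - 4 * a * e| := by
      rw [h.disc, abs_mul, abs_of_nonneg (sq_nonneg f)]
    rw [h0]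
    have h1 : |b ^ 2| ≤ (M : ℤ) ^ 2 := by
      rw [abs_pow, Int.abs_eq_natAbs]
      exact pow_le_pow_left₀ (Int.natCast_nonneg _) (by exact_mod_cast kb) 2
    have h2 : |4 * a * e| ≤ 4 * (M : ℤ) ^ 2 := by
      have h3 : |4 * a * e| = 4 * ((a.natAbs * e.natAbs : ℕ) : ℤ) := by
        rw [abs_mul, abs_mul, abs_of_pos (by norm_num : (0 : ℤ) < 4)]
        push_cast
        ring
      rw [h3]
      have : ((a.natAbs * e.natAbs : ℕ) : ℤ) ≤ (M : ℤ) ^ 2 := by exact_mod_cast kae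
      linarith
    exact (abs_sub _ _).trans (by linarith)
  have hf1 : 1 ≤ f := h.fpos
  have hD1 : 1 ≤ |D| := Int.one_le_abs h.D0
  refine ⟨?_, ?_, ?_, ?_, ?_⟩
  · rw [Int.abs_eq_natAbs]; exact_mod_cast ka'
  · rw [Int.abs_eq_natAbs]; exact_mod_cast kb
  · rw [Int.abs_eq_natAbs]; exact_mod_cast ke'
  · push_cast
    have h5 : 1 ≤ f ^ 2 := by nlinarith
    nlinarith
  · push_cast
    have h5 : f ^ 2 ≤ 5 * (M : ℤ) ^ 2 := by nlinarith [sq_nonneg f]
    nlinarith [Int.natCast_nonneg M]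

theorem xi_zero {d : ℕ} (c : Fin (d + 1) → ℤ) {a b e f D : ℤ} (h : Quad a b e f D)
    (h0 : Res c a b e = 0) : (xi c a b f D).re = 0 ∧ (xi c a b f D).im = 0 := by
  have h1 := norm_eq c h
  rw [h0, mul_zero] at h1
  have him : (xi c a b f D).im = 0 := by
    by_contra hne
    exact not_sq h.sq h.D1 (xi c a b f D).re (xi c a b f D).im hne (by linarith)
  refine ⟨?_, him⟩
  rw [him] at h1
  have : (xi c a b f D).re ^ 2 = 0 := by linarith
  exact pow_eq_zero_iff (by norm_num) |>.1 this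

/-- **The count for one line.** -/
theorem line_dyadic {n t : ℕ} (J : Finset (Fin t)) (dg : Fin t → ℕ) (hdg : ∀ i, 1 ≤ dg i)
    (S : Finset ℕ) (η : ℝ) (hη : 0 < η) :
    ∃ C : ℝ, 0 < C ∧ ∀ (T M : ℕ) (R : ℝ) (L : Fin n → Fin (n + 2) → ℤ) (u v : Fin (n + 2) → ℤ)
      (𝒜 : Finset (Fin t → MvPolynomial (Fin (n + 2)) ℤ)), Reduced L u v →
      LinearIndependent ℚ (fun j => (fun k => (L j k : ℚ))) → 1 ≤ T → (∀ j k, |L j k| ≤ T) →
      1 ≤ M → M * (qq u * qq v) ≤ T → 0 ≤ R → (∀ F ∈ 𝒜, Lbad J dg S T M R u v F) →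
      (#𝒜 : ℝ) ≤ C * R * M ^ 2 * (T : ℝ) ^ η *
        ∏ i, ((T : ℝ) ^ ((n + 1 + dg i).choose (n + 1)) * M /
          ((T : ℝ) ^ 2 * ((M : ℝ) * (((qq u : ℕ) : ℝ) * ((qq v : ℕ) : ℝ))) ^ (dg i))) := by
  classical
  set δ : ℕ := ∑ i, dg i with hδ
  set Kc : ℕ := (∑ i, (n + 1 + dg i).choose (n + 1) * 2 ^ (dg i)) + 1 with hKc
  set A : ℕ := 1 + (2 * t + 1) * ((δ + 1) * (δ + 1)) with hA
  set τ : ℝ := η / A with hτ
  have hA0 : 0 < A := by omega
  have hτ0 : 0 < τ := by positivity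
  obtain ⟨C, hC, hdata⟩ := card_data J dg S τ hτ0
  set c1 : ℕ := (δ + 1) * 4 ^ δ * Kc ^ (δ + 1) with hc1
  have hc10 : 0 < c1 := by positivity
  refine ⟨C * ((c1 : ℝ) ^ (2 * t + 1)) ^ τ * ∏ i, KF n (dg i), by
    have := fun i => KF_pos n (dg i)
    have hp : 0 < ∏ i, KF n (dg i) := prod_pos (fun i _ => this i)
    positivity, fun T M R L u v 𝒜 hr hind hT hL hM hMT hR h𝒜 => ?_⟩
  have hTr : (1 : ℝ) ≤ T := by exact_mod_cast hT
  have hT0 : (0 : ℝ) < T := by linarith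
  have hU := qq_pos u hr.u0
  have hUV := hr.le
  have hV : 1 ≤ qq v := hU.trans hUV
  have hMT' : M ≤ T := (Nat.le_mul_of_pos_right M (Nat.mul_pos hU hV)).trans hMT
  have hMVT : M * qq v ≤ T := by
    refine le_trans ?_ hMT
    exact Nat.mul_le_mul_left _ (Nat.le_mul_of_pos_left _ hU)
  have hVT : qq v ≤ T := (Nat.le_mul_of_pos_left _ hM).trans hMVT
  set Lb : ℕ := Kc * T ^ (δ + 1) with hLb
  have hLb1 : 1 ≤ Lb := Nat.succ_le_of_lt (by positivity)
  have hTLb : T ≤ Lb := by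
    calc T = 1 * T ^ 1 := by ring
      _ ≤ Kc * T ^ (δ + 1) := Nat.mul_le_mul (by omega) (Nat.pow_le_pow_right hT (by omega))
  set B : ℕ := (δ + 1) * Lb * (4 * Lb) ^ δ with hB
  have hB1 : 1 ≤ B := Nat.succ_le_of_lt (by positivity)
  have hX1 : ∀ i : Fin t, 1 ≤ (fun _ : Fin t => B ^ 2) i := fun _ => Nat.one_le_pow _ _ hB1
  -- the data
  have key : ∀ F : Fin t → MvPolynomial (Fin (n + 2)) ℤ, ∃ a b e f D : ℤ, F ∈ 𝒜 →
      Quad a b e f D ∧
    gm (qq u) (qq v) a b e ≤ M * (qq u * qq v) ∧ M * (qq u * qq v) ≤ 2 * gm (qq u) (qq v) a b e ∧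
    (∀ i, i ∉ J → Res (cf (dg i) u v (F i)) a b e = 0) ∧
    (∀ i, i ∈ J → Res (cf (dg i) u v (F i)) a b e ≠ 0) ∧
    (rho S (∏ i, if i ∈ J then Res (cf (dg i) u v (F i)) a b e else 1) : ℝ) * |(D : ℝ)| ≤ R := by
    intro F
    by_cases hF : F ∈ 𝒜
    · obtain ⟨-, a, b, e, f, D, h⟩ := h𝒜 F hF
      exact ⟨a, b, e, f, D, fun _ => h⟩
    · exact ⟨0, 0, 0, 0, 0, fun h => absurd h hF⟩
  choose a b e f D hq using key
  let Φ : (Fin t → MvPolynomial (Fin (n + 2)) ℤ) →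
      (Σ (_ : ℤ) (_ : Fin t → ℤ) (_ : ℤ) (_ : ℤ), ℤ × (Fin t → ℤ × ℤ)) := fun F =>
    ⟨D F, fun i => if i ∈ J then Res (cf (dg i) u v (F i)) (a F) (b F) (e F) else 1, f F, a F,
      (b F, fun i => ((xi (cf (dg i) u v (F i)) (a F) (b F) (f F) (D F)).re,
        (xi (cf (dg i) u v (F i)) (a F) (b F) (f F) (D F)).im))⟩
  have hbds : ∀ F ∈ 𝒜, ∀ i, |(xi (cf (dg i) u v (F i)) (a F) (b F) (f F) (D F)).re| ≤ (B : ℤ) ∧
      |(xi (cf (dg i) u v (F i)) (a F) (b F) (f F) (D F)).im| ≤ (B : ℤ) ∧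
      |Res (cf (dg i) u v (F i)) (a F) (b F) (e F)| ≤ ((B ^ 2 : ℕ) : ℤ) := by
    intro F hF i
    obtain ⟨hQ, hg1, hg2, -⟩ := hq F hF
    obtain ⟨s1, s2, s3, -⟩ := sizes hU hUV hQ hg1
    have hdi : dg i ≤ δ := single_le_sum (f := dg) (fun _ _ => Nat.zero_le _) (mem_univ i)
    have hcfi : ∀ j, |cf (dg i) u v (F i) j| ≤ (Lb : ℤ) := by
      intro j
      have hj : (j : ℕ) ≤ dg i := Nat.lt_succ_iff.1 j.2
      have h1 := (res_wbd u v (F i) ((h𝒜 F hF).1 i)).1 j hj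
      have h2 : ((n + 1 + dg i).choose (n + 1) : ℝ) * (T * 2 ^ (dg i)) * ((qq u : ℕ) : ℝ) ^ (j : ℕ) *
          ((qq v : ℕ) : ℝ) ^ (dg i - j) ≤ (Lb : ℝ) := by
        have e1 : ((qq u : ℕ) : ℝ) ≤ T := by exact_mod_cast hUV.trans hVT
        have e2 : ((qq v : ℕ) : ℝ) ≤ T := by exact_mod_cast hVT
        have e3 : (((n + 1 + dg i).choose (n + 1) * 2 ^ (dg i) : ℕ) : ℝ) ≤ Kc := by
          have := single_le_sum (f := fun i => (n + 1 + dg i).choose (n + 1) * 2 ^ (dg i))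
            (fun _ _ => Nat.zero_le _) (mem_univ i)
          have h4 : (n + 1 + dg i).choose (n + 1) * 2 ^ (dg i) ≤ Kc := by
            rw [hKc]; exact this.trans (Nat.le_succ _)
          exact_mod_cast h4
        push_cast at e3
        calc ((n + 1 + dg i).choose (n + 1) : ℝ) * (T * 2 ^ (dg i)) * ((qq u : ℕ) : ℝ) ^ (j : ℕ) *
              ((qq v : ℕ) : ℝ) ^ (dg i - j)
            ≤ ((n + 1 + dg i).choose (n + 1) : ℝ) * (T * 2 ^ (dg i)) * (T : ℝ) ^ (j : ℕ) *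
              (T : ℝ) ^ (dg i - j) := by
              refine mul_le_mul (mul_le_mul_of_nonneg_left (pow_le_pow_left₀ (by positivity) e1 _)
                (by positivity)) (pow_le_pow_left₀ (by positivity) e2 _) (by positivity)
                (by positivity)
          _ = (((n + 1 + dg i).choose (n + 1) : ℝ) * 2 ^ (dg i)) * (T : ℝ) ^ (dg i + 1) := by
              have : (T : ℝ) ^ (dg i + 1) = T * ((T : ℝ) ^ (j : ℕ) * (T : ℝ) ^ (dg i - j)) := by
                rw [← pow_add, Nat.add_sub_cancel' hj, pow_succ]; ring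
              rw [this]; ring
          _ ≤ Kc * (T : ℝ) ^ (δ + 1) :=
              mul_le_mul e3 (pow_le_pow_right₀ hTr (by omega)) (by positivity) (by positivity)
          _ = (Lb : ℝ) := by rw [hLb]; push_cast; ring
      have h3 := h1.trans h2
      exact_mod_cast h3
    have hTz : (T : ℤ) ≤ Lb := by exact_mod_cast hTLb
    have hMz : (M : ℤ) ≤ T := by exact_mod_cast hMT'
    have hMVz : ((M * qq v : ℕ) : ℤ) ≤ T := by exact_mod_cast hMVT
    have h1 := T3.bounds (cf (dg i) u v (F i)) hQ Lb hcfi ((s1.trans hMz).trans hTz)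
      ((s2.trans hMz).trans hTz) ((s3.trans hMVz).trans hTz)
    have h2 : (dg i + 1) * Lb * (4 * Lb) ^ (dg i) ≤ B := by
      rw [hB]
      exact Nat.mul_le_mul (Nat.mul_le_mul_right _ (by omega))
        (Nat.pow_le_pow_right (by omega) hdi)
    have h2z : (((dg i + 1) * Lb * (4 * Lb) ^ (dg i) : ℕ) : ℤ) ≤ B := by exact_mod_cast h2
    refine ⟨h1.1.trans h2z, h1.2.1.trans h2z, h1.2.2.trans ?_⟩
    push_cast
    push_cast at h2z
    exact pow_le_pow_left₀ (by positivity) h2z 2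
  have hmaps : ∀ F ∈ 𝒜, Φ F ∈ Data J dg S M B (fun _ => B ^ 2) R := by
    intro F hF
    obtain ⟨hQ, hg1, hg2, hz, hnz, hrho⟩ := hq F hF
    obtain ⟨s1, s2, s3, s4, s5⟩ := sizes hU hUV hQ hg1
    have hD0 : 0 < |(D F : ℝ)| := abs_pos.2 (by exact_mod_cast hQ.D0)
    unfold Data
    rw [mem_sigma, mem_sigma, mem_sigma, mem_sigma, mem_product]
    refine ⟨?_, ?_, ?_, ?_, ?_, ?_⟩
    · change D F ∈ DS M
      rw [DS, mem_filter, mem_Icc, ← abs_le]
      exact ⟨s4, hQ.sq, hQ.D1⟩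
    · change (fun i => if i ∈ J then Res (cf (dg i) u v (F i)) (a F) (b F) (e F) else 1) ∈
        Tup S (fun _ => B ^ 2) (R / |(D F : ℝ)|)
      rw [Tup, mem_filter, Fintype.mem_piFinset]
      refine ⟨fun i => ?_, fun i => ?_, ?_⟩
      · rw [mem_Icc, ← abs_le]
        split_ifs with hi
        · exact (hbds F hF i).2.2
        · rw [abs_one]; exact_mod_cast hX1 i
      · beta_reduce
        split_ifs with hi
        · exact hnz i hi
        · exact one_ne_zero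
      · rw [le_div_iff₀ hD0]
        exact hrho
    · change f F ∈ Icc (1 : ℤ) ((3 * M : ℕ) : ℤ)
      rw [mem_Icc]
      exact ⟨hQ.fpos, s5⟩
    · change a F ∈ aS M
      rw [aS, mem_filter, mem_Icc, ← abs_le]
      exact ⟨s1, hQ.a0⟩
    · change b F ∈ bS M (a F) (f F ^ 2 * D F)
      rw [bS, mem_filter, mem_Icc, ← abs_le]
      refine ⟨s2, ⟨4 * e F, ?_⟩⟩
      have := hQ.disc
      linarith
    · change (fun i => ((xi (cf (dg i) u v (F i)) (a F) (b F) (f F) (D F)).re,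
        (xi (cf (dg i) u v (F i)) (a F) (b F) (f F) (D F)).im)) ∈
        xiS J dg (D F) (a F) (fun i => if i ∈ J then
          Res (cf (dg i) u v (F i)) (a F) (b F) (e F) else 1) B
      rw [xiS, Fintype.mem_piFinset]
      intro i
      split_ifs with hi
      · rw [yS, mem_filter, mem_product, mem_Icc, mem_Icc, ← abs_le, ← abs_le]
        exact ⟨⟨(hbds F hF i).1, (hbds F hF i).2.1⟩, norm_eq _ hQ⟩
      · rw [mem_singleton]
        obtain ⟨h1, h2⟩ := xi_zero (cf (dg i) u v (F i)) hQ (hz i hi)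
        rw [h1, h2]
  -- the fibres
  set E : Fin t → ℝ := fun i => KF n (dg i) * ((T : ℝ) ^ ((n + 1 + dg i).choose (n + 1)) * M /
          ((T : ℝ) ^ 2 * ((M : ℝ) * (((qq u : ℕ) : ℝ) * ((qq v : ℕ) : ℝ))) ^ (dg i))) with hE
  have hE0 : ∀ i, 0 ≤ E i := fun i => by
    have := (KF_pos n (dg i)).le
    rw [hE]
    dsimp only
    positivity
  have hfib : ∀ y ∈ Data J dg S M B (fun _ => B ^ 2) R,
      #{F ∈ 𝒜 | Φ F = y} ≤ ⌊∏ i, E i⌋₊ := by
    intro y _
    refine Nat.le_floor ?_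
    rcases (𝒜.filter (fun F => Φ F = y)).eq_empty_or_nonempty with h0 | ⟨F1, hF1⟩
    · rw [h0, card_empty]
      exact_mod_cast prod_nonneg (fun i _ => hE0 i)
    · rw [mem_filter] at hF1
      obtain ⟨hF1A, hF1y⟩ := hF1
      obtain ⟨hQ, hg1, hg2, -⟩ := hq F1 hF1A
      have hfinset : ∀ i, (Box (n + 1) (dg i) T).Finite := fun i => finite_box _ _ _
      let Bi : (i : Fin t) → Finset (MvPolynomial (Fin (n + 2)) ℤ) := fun i =>
        (hfinset i).toFinset.filter (fun G =>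
          xi (cf (dg i) u v G) (a F1) (b F1) (f F1) (D F1) =
            xi (cf (dg i) u v (F1 i)) (a F1) (b F1) (f F1) (D F1))
      have h1 : 𝒜.filter (fun F => Φ F = y) ⊆ Fintype.piFinset Bi := by
        intro F hF
        rw [mem_filter] at hF
        rw [Fintype.mem_piFinset]
        intro i
        rw [mem_filter, Set.Finite.mem_toFinset]
        refine ⟨(h𝒜 F hF.1).1 i, ?_⟩
        have hcy : Φ F = Φ F1 := hF.2.trans hF1y.symm
        have k1 : D F = D F1 := congrArg (fun x => x.1) hcy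
        have k2 : f F = f F1 := congrArg (fun x => x.2.2.1) hcy
        have k3 : a F = a F1 := congrArg (fun x => x.2.2.2.1) hcy
        have k4 : b F = b F1 := congrArg (fun x => x.2.2.2.2.1) hcy
        have k5 : (xi (cf (dg i) u v (F i)) (a F) (b F) (f F) (D F)).re =
            (xi (cf (dg i) u v (F1 i)) (a F1) (b F1) (f F1) (D F1)).re :=
          congrArg (fun x => (x.2.2.2.2.2 i).1) hcy
        have k6 : (xi (cf (dg i) u v (F i)) (a F) (b F) (f F) (D F)).im =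
            (xi (cf (dg i) u v (F1 i)) (a F1) (b F1) (f F1) (D F1)).im :=
          congrArg (fun x => (x.2.2.2.2.2 i).2) hcy
        rw [k1, k2, k3, k4] at k5 k6
        exact Zsqrtd.ext k5 k6
      have h2 : (#(𝒜.filter (fun F => Φ F = y)) : ℝ) ≤ #(Fintype.piFinset Bi) := by
        exact_mod_cast card_le_card h1
      refine h2.trans ?_
      rw [Fintype.card_piFinset]
      push_cast
      refine prod_le_prod (fun _ _ => Nat.cast_nonneg _) (fun i _ => ?_)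
      refine fibreF (hdg i) hr hind T M hT hL hM hMT hQ hg2
        (xi (cf (dg i) u v (F1 i)) (a F1) (b F1) (f F1) (D F1)) (Bi i) ?_
      intro G hG
      rw [mem_filter, Set.Finite.mem_toFinset] at hG
      exact hG
  have h1 : #𝒜 ≤ ⌊∏ i, E i⌋₊ * #(Data J dg S M B (fun _ => B ^ 2) R) :=
    card_le_mul_card_image_of_maps_to hmaps _ hfib
  have hPE : 0 ≤ ∏ i, E i := prod_nonneg (fun i _ => hE0 i)
  have h2 : (#𝒜 : ℝ) ≤ (∏ i, E i) * #(Data J dg S M B (fun _ => B ^ 2) R) := by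
    have h3 : (#𝒜 : ℝ) ≤ (⌊∏ i, E i⌋₊ : ℝ) * #(Data J dg S M B (fun _ => B ^ 2) R) := by
      exact_mod_cast h1
    exact h3.trans (mul_le_mul_of_nonneg_right (Nat.floor_le hPE) (Nat.cast_nonneg _))
  refine h2.trans ((mul_le_mul_of_nonneg_left (hdata M B (fun _ => B ^ 2) R hM hB1 hX1 hR)
    hPE).trans ?_)
  have hpow : ((M * B * ∏ _i : Fin t, B ^ 2 : ℕ) : ℝ) ^ τ ≤
      ((c1 : ℝ) ^ (2 * t + 1)) ^ τ * (T : ℝ) ^ η := by
    have hBe : B = c1 * T ^ ((δ + 1) * (δ + 1)) := by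
      rw [hB, hLb, hc1]
      rw [pow_mul]
      ring_nf
    have hnat : M * B * ∏ _i : Fin t, B ^ 2 ≤ c1 ^ (2 * t + 1) * T ^ A := by
      rw [prod_const, card_univ, Fintype.card_fin, ← pow_mul]
      calc M * B * B ^ (2 * t) = M * B ^ (2 * t + 1) := by ring
        _ ≤ T * B ^ (2 * t + 1) := Nat.mul_le_mul_right _ hMT'
        _ = c1 ^ (2 * t + 1) * T ^ A := by
            rw [hBe, mul_pow, ← pow_mul, hA, pow_add T 1, pow_one,
              mul_comm ((δ + 1) * (δ + 1)) (2 * t + 1)]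
            ring
    have hreal : ((M * B * ∏ _i : Fin t, B ^ 2 : ℕ) : ℝ) ≤ (c1 : ℝ) ^ (2 * t + 1) * (T : ℝ) ^ A := by
      exact_mod_cast hnat
    refine (Real.rpow_le_rpow (Nat.cast_nonneg _) hreal hτ0.le).trans (le_of_eq ?_)
    rw [Real.mul_rpow (by positivity) (by positivity), ← Real.rpow_natCast (T : ℝ) A,
      ← Real.rpow_mul hT0.le]
    congr 2
    rw [hτ]
    field_simp
  calc (∏ i, E i) * (C * R * M ^ 2 * ((M * B * ∏ _i : Fin t, B ^ 2 : ℕ) : ℝ) ^ τ)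
      ≤ (∏ i, E i) * (C * R * M ^ 2 * (((c1 : ℝ) ^ (2 * t + 1)) ^ τ * (T : ℝ) ^ η)) := by
        refine mul_le_mul_of_nonneg_left (mul_le_mul_of_nonneg_left hpow (by positivity)) hPE
    _ = _ := by
        rw [hE, prod_mul_distrib]
        ring

end Pool.Agent.Q256.T4
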