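import Mathlib
import Pool.Agent.Q256.T4.Cnt
import Pool.Agent.Q256.VT.Cnt

set_option autoImplicit false

/-!
Counting the systems of forms with bad values at some quadratic point.
-/

namespace Pool.Agent.Q256.T4

open Finset
open Pool.Agent.H813R3.Voj (rho rho_pos)
open Pool.Agent.Q256.CI
open Pool.Agent.Q256.LN (res res_wbd line_small)
open Pool.Agent.Q256.T3 (Quad Res)

/-- reduced bases depend on the line only. -/
theorem reduced_of {n : ℕ} {L0 L : Fin n → Fin (n + 2) → ℤ} {u v : Fin (n + 2) → ℤ}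
    (h : Reduced L0 u v) (hind : LinearIndependent ℚ (fun j => (fun k => (L j k : ℚ))))
    (hu : InL L u) (hv : InL L v) : Reduced L u v := by
  refine ⟨hu, hv, h.u0, fun x hx => ?_, h.le, h.half⟩
  have hcast : ∀ y : Fin (n + 2) → ℤ, InL L y → (fun k => (y k : ℚ)) ∈ LinearMap.ker (Lmap L) := by
    intro y hy
    rw [LinearMap.mem_ker]
    funext j
    have h1 : ∑ k, (L j k : ℚ) * (y k : ℚ) = 0 := by exact_mod_cast hy j
    rw [Lmap_apply]
    exact h1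
  set uq : Fin (n + 2) → ℚ := fun k => (u k : ℚ) with huq
  set vq : Fin (n + 2) → ℚ := fun k => (v k : ℚ) with hvq
  have hli : LinearIndependent ℚ ![uq, vq] := by
    rw [LinearIndependent.pair_iff]
    intro a b hab
    exact h.indep a b (fun k => by
      have := congrFun hab k
      simpa [uq, vq] using this)
  have hle : Submodule.span ℚ (Set.range ![uq, vq]) ≤ LinearMap.ker (Lmap L) := by
    rw [Submodule.span_le]
    rintro y ⟨i, rfl⟩
    fin_cases i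
    · exact hcast u hu
    · exact hcast v hv
  have heq : Submodule.span ℚ (Set.range ![uq, vq]) = LinearMap.ker (Lmap L) := by
    refine Submodule.eq_of_le_of_finrank_eq hle ?_
    rw [finrank_ker L hind, finrank_span_eq_card hli, Fintype.card_fin]
  have hx' := hcast x hx
  rw [← heq] at hx'
  have h3 : ∃ a b : ℚ, a • uq + b • vq = fun k => (x k : ℚ) := by
    have : Set.range ![uq, vq] = {uq, vq} := by
      ext y
      simp [Fin.exists_fin_two, eq_comm, or_comm]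
    rw [this, Submodule.mem_span_pair] at hx'
    exact hx'
  obtain ⟨a, b, hab⟩ := h3
  apply h.span
  intro j
  have h4 : ∀ k, (x k : ℚ) = a * u k + b * v k := by
    intro k
    have := congrFun hab k
    simpa [uq, vq] using this.symm
  have h5 : (∑ k, (L0 j k : ℚ) * x k) = 0 := by
    have e1 : ∑ k, (L0 j k : ℚ) * u k = 0 := by exact_mod_cast h.hu j
    have e2 : ∑ k, (L0 j k : ℚ) * v k = 0 := by exact_mod_cast h.hv j
    have e3 : ∀ k, (L0 j k : ℚ) * x k = a * ((L0 j k : ℚ) * u k) + b * ((L0 j k : ℚ) * v k) := by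
      intro k; rw [h4 k]; ring
    simp_rw [e3]
    rw [sum_add_distrib, ← mul_sum, ← mul_sum, e1, e2]
    ring
  exact_mod_cast h5

/-- a system of forms with a bad value at some quadratic point of size `Γ`. -/
def Bad0 {n t : ℕ} (J : Finset (Fin t)) (dg : Fin t → ℕ) (S : Finset ℕ) (T : ℕ) (w : ℤ) (Q : ℝ)
    (F : Fin t → MvPolynomial (Fin (n + 2)) ℤ) : Prop :=
  (∀ i, F i ∈ Box (n + 1) (dg i) T) ∧
    ∃ (L : Fin n → Fin (n + 2) → ℤ) (u v : Fin (n + 2) → ℤ) (a b e f D : ℤ), Reduced L u v ∧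
      Quad a b e f D ∧ 2 * gm (qq u) (qq v) a b e ≤ T ∧
      (∀ i, i ∉ J → Res (cf (dg i) u v (F i)) a b e = 0) ∧
      (∀ i, i ∈ J → Res (cf (dg i) u v (F i)) a b e ≠ 0) ∧
      (rho S (∏ i, if i ∈ J then Res (cf (dg i) u v (F i)) a b e else 1) : ℝ) * |(D : ℝ)| ≤
        Q * (gm (qq u) (qq v) a b e : ℝ) ^ w

/-- sums over primitive vectors. -/
theorem sum_vec (m : ℕ) (η : ℝ) (hη : 0 < η) :
    ∃ C : ℝ, 0 < C ∧ ∀ (T : ℕ) (W : Finset (Fin (m + 1) → ℤ)), 1 ≤ T →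
      (∀ y ∈ W, 1 ≤ qq y ∧ qq y ≤ T) →
      ∑ y ∈ W, (((qq y : ℕ) : ℝ) ^ (m + 1))⁻¹ ≤ C * (T : ℝ) ^ η := by
  classical
  have hs := Pool.Agent.Q256.VT.summ_real m (-((m : ℝ) + 1 + η)) (by linarith)
  set S : ℝ := ∑' y : Fin (m + 1) → ℤ, ‖(fun k => (y k : ℝ))‖ ^ (-((m : ℝ) + 1 + η)) with hS
  have hS0 : 0 ≤ S := tsum_nonneg (fun y => by positivity)
  refine ⟨S + 1, by positivity, fun T W hT hW => ?_⟩
  have hTr : (1 : ℝ) ≤ T := by exact_mod_cast hT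
  have h1 : ∀ y ∈ W, (((qq y : ℕ) : ℝ) ^ (m + 1))⁻¹ ≤
      (T : ℝ) ^ η * ‖(fun k => (y k : ℝ))‖ ^ (-((m : ℝ) + 1 + η)) := by
    intro y hy
    obtain ⟨h2, h3⟩ := hW y hy
    have h2r : (0 : ℝ) < ((qq y : ℕ) : ℝ) := by exact_mod_cast h2
    have h3r : ((qq y : ℕ) : ℝ) ≤ T := by exact_mod_cast h3
    rw [norm_eq_qq, neg_add, Real.rpow_add h2r, Real.rpow_neg h2r.le, Real.rpow_neg h2r.le]
    have e1 : ((qq y : ℕ) : ℝ) ^ ((m : ℝ) + 1) = ((qq y : ℕ) : ℝ) ^ (m + 1) := by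
      rw [← Real.rpow_natCast]; push_cast; rfl
    rw [e1]
    have e2 : ((qq y : ℕ) : ℝ) ^ η ≤ (T : ℝ) ^ η := Real.rpow_le_rpow h2r.le h3r hη.le
    have e3 : 0 < ((qq y : ℕ) : ℝ) ^ η := Real.rpow_pos_of_pos h2r _
    have e4 : 1 ≤ (T : ℝ) ^ η * (((qq y : ℕ) : ℝ) ^ η)⁻¹ := by
      rw [← div_eq_mul_inv, le_div_iff₀ e3, one_mul]
      exact e2
    calc (((qq y : ℕ) : ℝ) ^ (m + 1))⁻¹ ≤ (((qq y : ℕ) : ℝ) ^ (m + 1))⁻¹ *
          ((T : ℝ) ^ η * (((qq y : ℕ) : ℝ) ^ η)⁻¹) := le_mul_of_one_le_right (by positivity) e4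
      _ = _ := by ring
  refine (sum_le_sum h1).trans ?_
  rw [← mul_sum, mul_comm]
  refine mul_le_mul_of_nonneg_right ?_ (by positivity)
  have := hs.sum_le_tsum W (fun y _ => by positivity)
  linarith

/-- **The count.** -/
theorem main_count {n t : ℕ} (ht : t ≤ n) (J : Finset (Fin t)) (dg : Fin t → ℕ)
    (hdg : ∀ i, 1 ≤ dg i) (S : Finset ℕ) (w : ℤ) (hw : w = (∑ i, dg i : ℕ) - ((n + 2 : ℕ) : ℤ))
    (η : ℝ) (hη : 0 < η) :
    ∃ C : ℝ, 0 < C ∧ ∀ (T : ℕ) (Q : ℝ) (𝒜 : Finset (Fin t → MvPolynomial (Fin (n + 2)) ℤ)),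
      1 ≤ T → 0 ≤ Q → (∀ F ∈ 𝒜, Bad0 J dg S T w Q F) →
      (#𝒜 : ℝ) ≤ C * Q * (T : ℝ) ^ η *
        ((T : ℝ) ^ (∑ i, (n + 1 + dg i).choose (n + 1)) / (T : ℝ) ^ (2 * t)) := by
  classical
  set τ : ℝ := η / 4 with hτ
  have hτ0 : 0 < τ := by positivity
  obtain ⟨C, hC, hline⟩ := line_dyadic (n := n) J dg hdg S τ hτ0
  obtain ⟨Cv, hCv, hvec⟩ := sum_vec (n + 1) τ hτ0
  have hl2 : 0 < Real.log 2 := Real.log_pos (by norm_num)
  set c2 : ℝ := 2 ^ (w.natAbs) with hc2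
  refine ⟨C * c2 * ((1 / τ / Real.log 2 + 1) * (Cv * Cv)), by positivity,
    fun T Q 𝒜 hT hQ h𝒜 => ?_⟩
  have hTr : (1 : ℝ) ≤ T := by exact_mod_cast hT
  have hT0 : (0 : ℝ) < T := by linarith
  -- the data
  have key : ∀ F : Fin t → MvPolynomial (Fin (n + 2)) ℤ,
      ∃ p : (Fin (n + 2) → ℤ) × (Fin (n + 2) → ℤ) × ℕ, F ∈ 𝒜 →
        (∃ L : Fin n → Fin (n + 2) → ℤ, Reduced L p.1 p.2.1 ∧
          LinearIndependent ℚ (fun j => (fun k => (L j k : ℚ))) ∧ (∀ j k, |L j k| ≤ T)) ∧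
        2 ^ (p.2.2 + 1) * (qq p.1 * qq p.2.1) ≤ T ∧ p.2.2 ≤ Nat.log 2 T ∧
        Lbad J dg S T (2 ^ (p.2.2 + 1))
          (c2 * Q * (((2 ^ (p.2.2 + 1) : ℕ) : ℝ) *
            (((qq p.1 : ℕ) : ℝ) * ((qq p.2.1 : ℕ) : ℝ))) ^ w) p.1 p.2.1 F := by
    intro F
    by_cases hF : F ∈ 𝒜
    · obtain ⟨hbox, L0, u, v, a, b, e, f, D, hr0, hQd, hgT, hz, hnz, hrho⟩ := h𝒜 F hF
      have hU := qq_pos u hr0.u0
      have hUV := hr0.le
      have hV : 1 ≤ qq v := hU.trans hUV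
      obtain ⟨g1, g2, g3⟩ := le_gm (qq u) (qq v) a b e
      set Γ : ℕ := gm (qq u) (qq v) a b e with hΓ
      have ha1 : 1 ≤ a.natAbs := Int.natAbs_pos.2 hQd.a0
      have hV2 : qq v ^ 2 ≤ Γ := (Nat.le_mul_of_pos_left _ ha1).trans g1
      have hUVΓ : qq u * qq v ≤ Γ := by
        refine le_trans ?_ hV2
        rw [sq]
        exact Nat.mul_le_mul_right _ hUV
      have hUV0 : 0 < qq u * qq v := Nat.mul_pos hU hV
      set g : ℕ := Γ / (qq u * qq v) with hg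
      have hg1 : 1 ≤ g := (Nat.one_le_div_iff hUV0).2 hUVΓ
      set j : ℕ := Nat.log 2 g with hj
      have hj1 : 2 ^ j ≤ g := Nat.pow_log_le_self 2 (by omega)
      have hj2 : g < 2 ^ (j + 1) := Nat.lt_pow_succ_log_self (by norm_num) g
      have hm1 : Γ ≤ 2 ^ (j + 1) * (qq u * qq v) := by
        have h1 : Γ < (qq u * qq v) * (g + 1) := Nat.lt_mul_div_succ Γ hUV0
        have h2 : (qq u * qq v) * (g + 1) ≤ (qq u * qq v) * 2 ^ (j + 1) :=
          Nat.mul_le_mul_left _ hj2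
        rw [mul_comm] at h2
        rw [mul_comm (2 ^ (j + 1))]
        calc Γ ≤ (qq u * qq v) * (g + 1) := h1.le
          _ ≤ (qq u * qq v) * 2 ^ (j + 1) := Nat.mul_le_mul_left _ hj2
      have hm2 : 2 ^ (j + 1) * (qq u * qq v) ≤ 2 * Γ := by
        have h1 : (qq u * qq v) * g ≤ Γ := Nat.mul_div_le _ _
        calc 2 ^ (j + 1) * (qq u * qq v) = 2 * ((qq u * qq v) * 2 ^ j) := by ring
          _ ≤ 2 * ((qq u * qq v) * g) := Nat.mul_le_mul_left _ (Nat.mul_le_mul_left _ hj1)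
          _ ≤ 2 * Γ := Nat.mul_le_mul_left _ h1
      -- the linear forms
      have hab : ∃ i k, u i * v k ≠ u k * v i := by
        by_contra hcon
        push Not at hcon
        obtain ⟨k, hk⟩ : ∃ k, u k ≠ 0 := by
          by_contra h
          push Not at h
          exact hr0.u0 (funext h)
        have h1 := hr0.indep (v k) (-(u k)) (fun i => by
          have h2 := hcon i k
          have h3 : (u i : ℚ) * v k = u k * v i := by exact_mod_cast h2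
          linear_combination h3)
        have h2 : (u k : ℚ) = 0 := by linarith [h1.2]
        exact hk (by exact_mod_cast h2)
      obtain ⟨L, hL1, hL2, hL3, hL4⟩ := line_small T (qq v)
        (by omega : 2 * qq v ^ 2 ≤ T) u v
        (fun k => (le_qq u k).trans (by exact_mod_cast hUV)) (le_qq v) hab
      have hr := reduced_of hr0 hL2 hL3 hL4
      refine ⟨(u, v, j), fun _ => ⟨⟨L, hr, hL2, hL1⟩, hm2.trans hgT, ?_, hbox, a, b, e, f, D, hQd,
        hm1, hm2, hz, hnz, ?_⟩⟩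
      · change j ≤ Nat.log 2 T
        rw [hj]
        refine Nat.log_mono_right ?_
        calc g ≤ Γ := Nat.div_le_self _ _
          _ ≤ 2 * Γ := by omega
          _ ≤ T := hgT
      · refine hrho.trans ?_
        rw [mul_comm c2 Q, mul_assoc]
        refine mul_le_mul_of_nonneg_left ?_ hQ
        -- comparison of the powers
        have hΓ0 : (0 : ℝ) < Γ := by
          have : 0 < Γ := lt_of_lt_of_le hUV0 hUVΓ
          exact_mod_cast this
        set Z : ℝ := ((2 ^ (j + 1) : ℕ) : ℝ) * (((qq u : ℕ) : ℝ) * ((qq v : ℕ) : ℝ)) with hZ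
        have hZ1 : (Γ : ℝ) ≤ Z := by rw [hZ]; exact_mod_cast hm1
        have hZ2 : Z ≤ 2 * Γ := by rw [hZ]; exact_mod_cast hm2
        have hZ0 : 0 < Z := hΓ0.trans_le hZ1
        have hc21 : (1 : ℝ) ≤ c2 := one_le_pow₀ (by norm_num)
        rcases le_total 0 w with hw0 | hw0
        · calc (Γ : ℝ) ^ w ≤ Z ^ w := zpow_le_zpow_left₀ hw0 hΓ0.le hZ1
            _ ≤ c2 * Z ^ w := le_mul_of_one_le_left (by positivity) hc21
        · obtain ⟨m, hm⟩ := Int.exists_eq_neg_ofNat hw0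
          have hwm : w.natAbs = m := by rw [hm]; simp
          rw [hc2, hwm, hm, zpow_neg, zpow_neg, zpow_natCast, zpow_natCast, ← div_eq_mul_inv,
            inv_eq_one_div, div_le_div_iff₀ (by positivity) (by positivity), one_mul, ← mul_pow]
          exact pow_le_pow_left₀ hZ0.le hZ2 m
    · exact ⟨(0, 0, 0), fun h => absurd h hF⟩
  choose P hP using key
  have hcard : (#𝒜 : ℝ) = ∑ p ∈ 𝒜.image P, (#{F ∈ 𝒜 | P F = p} : ℝ) := by
    have := card_eq_sum_card_image P 𝒜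
    exact_mod_cast this
  set N : ℕ := ∑ i, (n + 1 + dg i).choose (n + 1) with hN
  set φ : (Fin (n + 2) → ℤ) → ℝ := fun y => (((qq y : ℕ) : ℝ) ^ (n + 1 + 1))⁻¹ with hφ
  have hφ0 : ∀ y, 0 ≤ φ y := fun y => by rw [hφ]; positivity
  set K : ℝ := C * c2 * Q * (T : ℝ) ^ τ * ((T : ℝ) ^ N / (T : ℝ) ^ (2 * t)) with hK
  have hK0 : 0 ≤ K := by positivity
  have hfib : ∀ p ∈ 𝒜.image P, (#{F ∈ 𝒜 | P F = p} : ℝ) ≤ K * (φ p.1 * φ p.2.1) := by
    intro p hp
    obtain ⟨F0, hF0, rfl⟩ := mem_image.1 hp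
    obtain ⟨⟨L, h1, h2, h3⟩, h4, h5, h6⟩ := hP F0 hF0
    generalize hpe : P F0 = p at *
    obtain ⟨u, v, j⟩ := p
    simp only at h1 h4 h5 h6 ⊢
    set M : ℕ := 2 ^ (j + 1) with hM
    have hM1 : 1 ≤ M := Nat.one_le_two_pow
    have hMr : (1 : ℝ) ≤ M := by exact_mod_cast hM1
    have hM0 : (0 : ℝ) < M := by linarith
    have hU := qq_pos u h1.u0
    have hV : 1 ≤ qq v := hU.trans h1.le
    have hUr : (1 : ℝ) ≤ ((qq u : ℕ) : ℝ) := by exact_mod_cast hU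
    have hVr : (1 : ℝ) ≤ ((qq v : ℕ) : ℝ) := by exact_mod_cast hV
    set U : ℝ := ((qq u : ℕ) : ℝ) with hUdef
    set V : ℝ := ((qq v : ℕ) : ℝ) with hVdef
    have hU0 : 0 < U := by linarith
    have hV0 : 0 < V := by linarith
    have h7 := hline T M (c2 * Q * ((M : ℝ) * (U * V)) ^ w) L u v
      (𝒜.filter (fun F => P F = (u, v, j))) h1 h2 hT h3 hM1 h4 (by positivity) (by
        intro F hF
        rw [mem_filter] at hF
        have h8 := (hP F hF.1).2.2.2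
        rw [hF.2] at h8
        exact h8)
    refine h7.trans ?_
    -- the exponents
    have e1 : ∏ i : Fin t, ((T : ℝ) ^ ((n + 1 + dg i).choose (n + 1)) * M /
          ((T : ℝ) ^ 2 * ((M : ℝ) * (U * V)) ^ (dg i))) =
        (T : ℝ) ^ N * (M : ℝ) ^ t / ((T : ℝ) ^ (2 * t) * ((M : ℝ) * (U * V)) ^ (∑ i, dg i)) := by
      rw [prod_div_distrib, prod_mul_distrib, prod_mul_distrib, prod_const, prod_const, card_univ,
        Fintype.card_fin, prod_pow_eq_pow_sum, prod_pow_eq_pow_sum, ← pow_mul]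
    rw [e1]
    set Z : ℝ := (M : ℝ) * (U * V) with hZ
    have hZ0 : 0 < Z := by positivity
    have e2 : Z ^ w = Z ^ (∑ i, dg i) / Z ^ (n + 2) := by
      rw [hw, zpow_sub₀ hZ0.ne', zpow_natCast, zpow_natCast]
    have e3 : φ u * φ v = ((U * V) ^ (n + 2))⁻¹ := by
      rw [hφ]
      dsimp only
      rw [← mul_inv, ← mul_pow]
    have e4 : (M : ℝ) ^ (2 + t) ≤ (M : ℝ) ^ (n + 2) := pow_le_pow_right₀ hMr (by omega)
    rw [e2, e3, hK]
    have e5 : C * (c2 * Q * (Z ^ (∑ i, dg i) / Z ^ (n + 2))) * (M : ℝ) ^ 2 * (T : ℝ) ^ τ *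
        ((T : ℝ) ^ N * (M : ℝ) ^ t / ((T : ℝ) ^ (2 * t) * Z ^ (∑ i, dg i))) =
        (C * c2 * Q * (T : ℝ) ^ τ * ((T : ℝ) ^ N / (T : ℝ) ^ (2 * t))) *
          ((M : ℝ) ^ (2 + t) / Z ^ (n + 2)) := by
      rw [pow_add (M : ℝ) 2 t]
      field_simp
    rw [e5]
    refine mul_le_mul_of_nonneg_left ?_ (by positivity)
    rw [hZ, mul_pow, div_le_iff₀ (by positivity)]
    calc (M : ℝ) ^ (2 + t) ≤ (M : ℝ) ^ (n + 2) := e4
      _ = ((U * V) ^ (n + 2))⁻¹ * ((M : ℝ) ^ (n + 2) * (U * V) ^ (n + 2)) := by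
          field_simp
  rw [hcard]
  refine (sum_le_sum hfib).trans ?_
  rw [← mul_sum]
  -- the sum over the lines
  set W1 := (𝒜.image P).image (fun p => p.1) with hW1
  set W2 := (𝒜.image P).image (fun p => p.2.1) with hW2
  have hsz : ∀ F ∈ 𝒜, (1 ≤ qq (P F).1 ∧ qq (P F).1 ≤ T) ∧ (1 ≤ qq (P F).2.1 ∧ qq (P F).2.1 ≤ T) := by
    intro F hF
    obtain ⟨⟨L, h1, h2, h3⟩, h4, h5, h6⟩ := hP F hF
    have hU := qq_pos _ h1.u0
    have hV := hU.trans h1.le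
    have h7 : 1 ≤ 2 ^ ((P F).2.2 + 1) := Nat.one_le_two_pow
    have h8 : qq (P F).1 * qq (P F).2.1 ≤ T := (Nat.le_mul_of_pos_left _ h7).trans h4
    exact ⟨⟨hU, (Nat.le_mul_of_pos_right _ hV).trans h8⟩,
      ⟨hV, (Nat.le_mul_of_pos_left _ hU).trans h8⟩⟩
  have hs1 : ∑ y ∈ W1, φ y ≤ Cv * (T : ℝ) ^ τ := by
    refine hvec T W1 hT (fun y hy => ?_)
    rw [hW1, mem_image] at hy
    obtain ⟨p, hp, rfl⟩ := hy
    obtain ⟨F, hF, rfl⟩ := mem_image.1 hp
    exact (hsz F hF).1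
  have hs2 : ∑ y ∈ W2, φ y ≤ Cv * (T : ℝ) ^ τ := by
    refine hvec T W2 hT (fun y hy => ?_)
    rw [hW2, mem_image] at hy
    obtain ⟨p, hp, rfl⟩ := hy
    obtain ⟨F, hF, rfl⟩ := mem_image.1 hp
    exact (hsz F hF).2
  have hlog : ((Nat.log 2 T + 1 : ℕ) : ℝ) ≤ (1 / τ / Real.log 2 + 1) * (T : ℝ) ^ τ := by
    have h3 : 2 ^ Nat.log 2 T ≤ T := Nat.pow_log_le_self 2 (by omega)
    have h4 : (Nat.log 2 T : ℝ) * Real.log 2 ≤ Real.log T := by
      rw [← Real.log_pow]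
      exact Real.log_le_log (by positivity) (by exact_mod_cast h3)
    have h5 : Real.log T ≤ (T : ℝ) ^ τ / τ := Real.log_le_rpow_div (by linarith) hτ0
    have h7 : 1 ≤ (T : ℝ) ^ τ := Real.one_le_rpow hTr hτ0.le
    have h8 : (Nat.log 2 T : ℝ) ≤ 1 / τ / Real.log 2 * (T : ℝ) ^ τ := by
      have h9 : (Nat.log 2 T : ℝ) ≤ (T : ℝ) ^ τ / τ / Real.log 2 := by
        rw [le_div_iff₀ hl2]; linarith
      refine h9.trans (le_of_eq ?_)
      rw [div_div, div_div, one_div, div_eq_inv_mul]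
    push_cast
    linarith
  have hsum : ∑ p ∈ 𝒜.image P, φ p.1 * φ p.2.1 ≤
      ((1 / τ / Real.log 2 + 1) * (T : ℝ) ^ τ) * ((Cv * (T : ℝ) ^ τ) * (Cv * (T : ℝ) ^ τ)) := by
    have h2 : 𝒜.image P ⊆ W1 ×ˢ (W2 ×ˢ range (Nat.log 2 T + 1)) := by
      intro p hp
      rw [mem_product, mem_product]
      refine ⟨mem_image_of_mem _ hp, mem_image_of_mem _ hp, ?_⟩
      obtain ⟨F, hF, rfl⟩ := mem_image.1 hp
      rw [mem_range, Nat.lt_succ_iff]
      exact (hP F hF).2.2.1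
    calc ∑ p ∈ 𝒜.image P, φ p.1 * φ p.2.1
        ≤ ∑ p ∈ W1 ×ˢ (W2 ×ˢ range (Nat.log 2 T + 1)), φ p.1 * φ p.2.1 :=
          sum_le_sum_of_subset_of_nonneg h2 (fun p _ _ => mul_nonneg (hφ0 _) (hφ0 _))
      _ = ((Nat.log 2 T + 1 : ℕ) : ℝ) * ((∑ y ∈ W1, φ y) * ∑ y ∈ W2, φ y) := by
          rw [sum_product, sum_mul, mul_sum]
          refine sum_congr rfl (fun y _ => ?_)
          rw [sum_product, mul_sum, mul_sum]
          refine sum_congr rfl (fun z _ => ?_)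
          show ∑ _j ∈ range (Nat.log 2 T + 1), φ y * φ z = _
          rw [sum_const, card_range, nsmul_eq_mul]
      _ ≤ _ := by
          refine mul_le_mul hlog (mul_le_mul hs1 hs2 (sum_nonneg (fun _ _ => hφ0 _)) (by positivity))
            (mul_nonneg (sum_nonneg (fun _ _ => hφ0 _)) (sum_nonneg (fun _ _ => hφ0 _)))
            (by positivity)
  refine (mul_le_mul_of_nonneg_left hsum hK0).trans (le_of_eq ?_)
  have hTη : (T : ℝ) ^ η = (T : ℝ) ^ τ * (T : ℝ) ^ τ * (T : ℝ) ^ τ * (T : ℝ) ^ τ := by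
    rw [← Real.rpow_add hT0, ← Real.rpow_add hT0, ← Real.rpow_add hT0]
    congr 1
    rw [hτ]; ring
  rw [hTη, hK]
  ring

end Pool.Agent.Q256.T4
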