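import Mathlib
import Pool.Agent.Q256.T4.Main
import Pool.Agent.Q216.T4.Rep
import Pool.Agent.Q216.T4.Ht
import Pool.Agent.Q296.T4.Val

set_option autoImplicit false

/-!
Almost all systems of forms and all quadratic points.
-/

namespace Pool.Agent.Q256.T4

open Finset
open Pool.Agent.H813R3.Voj (rho rho_pos)
open Pool.Agent.Q256.CI
open Pool.Agent.Q256.LN (res)
open Pool.Agent.Q256.T3 (Quad Res N1)

/-- the numbers `p k + q k √D` are homogeneous coordinates of a quadratic point, with field of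
definition `ℚ(√D)`. -/
structure QPt {N : ℕ} (p q : Fin N → ℤ) (D : ℤ) : Prop where
  sqf : Squarefree D
  ne_one : D ≠ 1
  irr : ∃ i j, p i * q j ≠ p j * q i

/-- the absolute logarithmic height of the point `(p k + q k √D)`. -/
noncomputable def hgt {N : ℕ} (p q : Fin N → ℤ) (D : ℤ) : ℝ := 1 / 2 * Real.log (H2 p q D)

/-- the systems of forms of height at most `T` for which the truncated inequality with the constant
`(t - κ / 2) log T` fails at some quadratic point of height at most `(log T) / 2` on the variety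
`F i = 0`, `i ∉ J`, outside the divisor `F i = 0`, `i ∈ J`. -/
def Bad {n t : ℕ} (J : Finset (Fin t)) (dg : Fin t → ℕ) (S : Finset ℕ) (T : ℕ) (κ : ℝ) :
    Set (Fin t → MvPolynomial (Fin (n + 2)) ℤ) :=
  {F | (∀ i, F i ∈ Box (n + 1) (dg i) T) ∧ ∃ (p q : Fin (n + 2) → ℤ) (D : ℤ), QPt p q D ∧
    hgt p q D ≤ 1 / 2 * Real.log T ∧
    (∀ i, i ∉ J → valD (F i) p q D = 0) ∧ (∀ i, i ∈ J → valD (F i) p q D ≠ 0) ∧
    N1 S 2 (∏ i ∈ J, nval (dg i) (F i) p q D) + 1 / 2 * Real.log |(D : ℝ)| <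
      (∑ i, (dg i : ℝ) - (n + 2)) * hgt p q D + (t - κ / 2) * Real.log T}

open Pool.Agent.Q296.T4 in
theorem norm_val {n : ℕ} {p q : Fin (n + 2) → ℤ} {D : ℤ} {L : Fin n → Fin (n + 2) → ℤ}
    {u v : Fin (n + 2) → ℤ} {a b e f c0 s1 s2 t1 t2 : ℤ}
    (h : Rep p q D L u v a b e f c0 s1 s2 t1 t2) (d : ℕ) (F : MvPolynomial (Fin (n + 2)) ℤ)
    (hF : F.IsHomogeneous d) : (valD F p q D).norm = c0 ^ d * T3.Res (cf d u v F) a b e := by
  obtain ⟨r, hr⟩ := T3.exists_sqrt D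
  have hr' : (-r) ^ 2 = (D : ℂ) := T3.neg_sq' hr
  have ha0 := h.quad.a0
  have haC : (a : ℂ) ≠ 0 := by exact_mod_cast ha0
  have hc0 : c0 ≠ 0 := h.cpos.ne'
  have hcC : (c0 : ℂ) ≠ 0 := by exact_mod_cast hc0
  have hA : ((t1 : ℂ) + t2 * r) * ((t1 : ℂ) + t2 * (-r)) = c0 * a := by
    have : ((t1 ^ 2 - D * t2 ^ 2 : ℤ) : ℂ) = ((c0 * a : ℤ) : ℂ) := by rw [h.ha]
    push_cast at this
    linear_combination this - (t2 : ℂ) ^ 2 * hr
  have hE : ((s1 : ℂ) + s2 * r) * ((s1 : ℂ) + s2 * (-r)) = c0 * e := by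
    have : ((s1 ^ 2 - D * s2 ^ 2 : ℤ) : ℂ) = ((c0 * e : ℤ) : ℂ) := by rw [h.he]
    push_cast at this
    linear_combination this - (s2 : ℂ) ^ 2 * hr
  have hB : ((s1 : ℂ) + s2 * r) * ((t1 : ℂ) + t2 * (-r)) +
      ((s1 : ℂ) + s2 * (-r)) * ((t1 : ℂ) + t2 * r) = -(c0 * b) := by
    have : ((2 * (s1 * t1 - D * (s2 * t2)) : ℤ) : ℂ) = ((-(c0 * b) : ℤ) : ℂ) := by rw [h.hb]
    push_cast at this
    linear_combination this - 2 * (s2 : ℂ) * t2 * hr
  have hprod : ((t1 : ℂ) + t2 * r) * ((t1 : ℂ) + t2 * (-r)) ≠ 0 := by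
    rw [hA]; exact mul_ne_zero hcC haC
  have ht : (t1 : ℂ) + t2 * r ≠ 0 := left_ne_zero_of_mul hprod
  have ht' : (t1 : ℂ) + t2 * (-r) ≠ 0 := right_ne_zero_of_mul hprod
  have h1 := phi_val h.hp h.hq d F hF r hr ht
  have h2 := phi_val h.hp h.hq d F hF (-r) hr' ht'
  set θ : ℂ := ((s1 : ℂ) + s2 * r) / ((t1 : ℂ) + t2 * r) with hθ
  set θ' : ℂ := ((s1 : ℂ) + s2 * (-r)) / ((t1 : ℂ) + t2 * (-r)) with hθ'
  have hs : (a : ℂ) * (θ + θ') = -b := by
    have e1 : (c0 : ℂ) * (a * (θ + θ')) = c0 * (-b) := by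
      calc (c0 : ℂ) * (a * (θ + θ')) = (((t1 : ℂ) + t2 * r) * ((t1 : ℂ) + t2 * (-r))) * (θ + θ') := by
            rw [hA]; ring
        _ = ((s1 : ℂ) + s2 * r) * ((t1 : ℂ) + t2 * (-r)) +
            ((s1 : ℂ) + s2 * (-r)) * ((t1 : ℂ) + t2 * r) := by
            rw [hθ, hθ']; exact frac_add ht ht'
        _ = _ := by rw [hB]; ring
    exact mul_left_cancel₀ hcC e1
  have hpr : (a : ℂ) * (θ * θ') = e := by
    have e1 : (c0 : ℂ) * (a * (θ * θ')) = c0 * e := by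
      calc (c0 : ℂ) * (a * (θ * θ')) = (((t1 : ℂ) + t2 * r) * ((t1 : ℂ) + t2 * (-r))) * (θ * θ') := by
            rw [hA]; ring
        _ = ((s1 : ℂ) + s2 * r) * ((s1 : ℂ) + s2 * (-r)) := by
            rw [hθ, hθ']; exact frac_mul ht ht'
        _ = _ := by rw [hE]
    exact mul_left_cancel₀ hcC e1
  have h3 := T3.res_eq (cf d u v F) a b e ha0 θ θ' hs hpr
  have h5 : (((valD F p q D).norm : ℤ) : ℂ) = ((c0 ^ d * T3.Res (cf d u v F) a b e : ℤ) : ℂ) := by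
    have h6 : (((valD F p q D).norm : ℤ) : ℂ) =
        T3.phi r hr (valD F p q D) * T3.phi (-r) hr' (valD F p q D) := by
      rw [T3.phi_apply, T3.phi_apply, Zsqrtd.norm_def]
      push_cast
      linear_combination ((valD F p q D).im : ℂ) ^ 2 * hr
    rw [h6, h1, h2]
    push_cast
    rw [h3]
    calc _ = (((t1 : ℂ) + t2 * r) * ((t1 : ℂ) + t2 * (-r))) ^ d *
          (Polynomial.aeval θ (T3.P (cf d u v F)) * Polynomial.aeval θ' (T3.P (cf d u v F))) := by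
          rw [mul_pow]; ring
      _ = _ := by rw [hA, mul_pow]; ring
  exact_mod_cast h5

theorem norm_ne_zero {D : ℤ} (hD : Squarefree D) (h1 : D ≠ 1) {z : ℤ√D} (hz : z ≠ 0) :
    z.norm ≠ 0 := by
  intro h
  rw [Zsqrtd.norm_def] at h
  apply hz
  have h2 : z.im = 0 := by
    by_contra h3
    exact T3.not_sq hD h1 z.re z.im h3 (by linear_combination h)
  rw [h2] at h
  have h3 : z.re = 0 := by
    have : z.re * z.re = 0 := by linear_combination h
    exact mul_self_eq_zero.1 this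
  exact Zsqrtd.ext h3 h2

theorem res_ne_zero {n : ℕ} {p q : Fin (n + 2) → ℤ} {D : ℤ} {L : Fin n → Fin (n + 2) → ℤ}
    {u v : Fin (n + 2) → ℤ} {a b e f c0 s1 s2 t1 t2 : ℤ}
    (h : Rep p q D L u v a b e f c0 s1 s2 t1 t2) (d : ℕ) (F : MvPolynomial (Fin (n + 2)) ℤ)
    (hF : F.IsHomogeneous d) (hv : valD F p q D ≠ 0) : T3.Res (cf d u v F) a b e ≠ 0 := by
  intro h0
  have h1 := norm_val h d F hF
  rw [h0, mul_zero] at h1
  exact norm_ne_zero h.quad.sq h.quad.D1 hv h1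

theorem res_eq_zero {n : ℕ} {p q : Fin (n + 2) → ℤ} {D : ℤ} {L : Fin n → Fin (n + 2) → ℤ}
    {u v : Fin (n + 2) → ℤ} {a b e f c0 s1 s2 t1 t2 : ℤ}
    (h : Rep p q D L u v a b e f c0 s1 s2 t1 t2) (d : ℕ) (F : MvPolynomial (Fin (n + 2)) ℤ)
    (hF : F.IsHomogeneous d) (hv : valD F p q D = 0) : T3.Res (cf d u v F) a b e = 0 := by
  have h1 := norm_val h d F hF
  rw [hv, Zsqrtd.norm_zero] at h1
  rcases mul_eq_zero.1 h1.symm with h2 | h2
  · exact absurd h2 (pow_ne_zero _ h.cpos.ne')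
  · exact h2

theorem box_mono {n d : ℕ} {A B : ℕ} (h : A ≤ B) : Box n d A ⊆ Box n d B :=
  fun _ hF => ⟨hF.1, fun α => (hF.2 α).trans (by exact_mod_cast h)⟩

theorem sys_finite {n t : ℕ} (dg : Fin t → ℕ) (T : ℕ) :
    {F : Fin t → MvPolynomial (Fin (n + 2)) ℤ | ∀ i, F i ∈ Box (n + 1) (dg i) T}.Finite := by
  have h1 : ∀ i : Fin t, (Box (n + 1) (dg i) T).Finite := by
    intro i
    rw [box_eq]
    exact finite_sbox _ _
  refine (Set.Finite.pi (fun i => h1 i)).subset ?_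
  intro F hF
  rw [Set.mem_univ_pi]
  exact hF

theorem bad_finite {n t : ℕ} (J : Finset (Fin t)) (dg : Fin t → ℕ) (S : Finset ℕ) (T : ℕ)
    (κ : ℝ) : (Bad (n := n) J dg S T κ).Finite :=
  (sys_finite dg T).subset (fun _ h => h.1)

theorem bad_to_bad0 {n t : ℕ} (J : Finset (Fin t)) (dg : Fin t → ℕ) (S : Finset ℕ) (T : ℕ)
    (κ : ℝ) (hT : 1 ≤ T) (w : ℤ) (hw : w = (∑ i, dg i : ℕ) - ((n + 2 : ℕ) : ℤ))
    (F : Fin t → MvPolynomial (Fin (n + 2)) ℤ) (hF : F ∈ Bad J dg S T κ) :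
    Bad0 J dg S (200 * T) w (100 ^ w.natAbs * (T : ℝ) ^ ((2 * t : ℝ) - κ)) F := by
  have hTr : (1 : ℝ) ≤ T := by exact_mod_cast hT
  have hT0 : (0 : ℝ) < T := by linarith
  obtain ⟨hbox, p, q, D, hx, hh, hz, hnz, hN⟩ := hF
  obtain ⟨L, u, v, a, b, e, f, c0, s1, s2, t1, t2, hrep⟩ := exists_rep p q D hx.sqf hx.ne_one hx.irr
  obtain ⟨hb1, hb2⟩ := H2_bounds hrep
  have hU := qq_pos u hrep.red.u0
  have hV : 1 ≤ qq v := hU.trans hrep.red.le
  obtain ⟨g1, g2, g3⟩ := le_gm (qq u) (qq v) a b e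
  change H2 p q D ≤ 100 * ((gm (qq u) (qq v) a b e : ℕ) : ℝ) at hb1
  change ((gm (qq u) (qq v) a b e : ℕ) : ℝ) ≤ 100 * H2 p q D at hb2
  set Γ : ℕ := gm (qq u) (qq v) a b e with hΓ
  have ha1 : 1 ≤ a.natAbs := Int.natAbs_pos.2 hrep.quad.a0
  have hΓ1 : 1 ≤ Γ := by
    refine le_trans ?_ g1
    exact Nat.one_le_iff_ne_zero.2 (Nat.mul_ne_zero (by omega) (pow_ne_zero _ (by omega)))
  have hΓr : (1 : ℝ) ≤ (Γ : ℝ) := by exact_mod_cast hΓ1
  have hH0 : 0 < H2 p q D := by linarith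
  have hHT : H2 p q D ≤ T := by
    unfold hgt at hh
    have h1 : Real.log (H2 p q D) ≤ Real.log T := by linarith
    exact (Real.log_le_log_iff hH0 hT0).1 h1
  refine ⟨fun i => box_mono (by omega) (hbox i), L, u, v, a, b, e, f, D, hrep.red, hrep.quad, ?_,
    fun i hi => res_eq_zero hrep _ _ (hbox i).1 (hz i hi),
    fun i hi => res_ne_zero hrep _ _ (hbox i).1 (hnz i hi), ?_⟩
  · have h1 : (2 * Γ : ℝ) ≤ 200 * T := by linarith
    exact_mod_cast h1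
  · have hprod : (∏ i ∈ J, nval (dg i) (F i) p q D) =
        ∏ i, if i ∈ J then Res (cf (dg i) u v (F i)) a b e else 1 := by
      rw [prod_ite_mem, univ_inter]
      exact prod_congr rfl (fun i _ => Pool.Agent.Q296.T4.nval_eq hrep _ _ (hbox i).1)
    rw [hprod, T3.N1_eq] at hN
    set m : ℤ := ∏ i, if i ∈ J then Res (cf (dg i) u v (F i)) a b e else 1 with hm
    have hρ : (0 : ℝ) < rho S m := by exact_mod_cast rho_pos S _
    have hD : (0 : ℝ) < |(D : ℝ)| := abs_pos.2 (by exact_mod_cast hrep.quad.D0)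
    rw [← Real.log_le_log_iff (by positivity) (by positivity), Real.log_mul hρ.ne' hD.ne',
      Real.log_mul (by positivity) (by positivity), Real.log_mul (by positivity) (by positivity),
      Real.log_pow, Real.log_rpow hT0, Real.log_zpow]
    have hwr : (w : ℝ) = ∑ i, (dg i : ℝ) - (n + 2) := by
      rw [hw]; push_cast; ring
    rw [← hwr] at hN
    unfold hgt at hN
    have l1 : Real.log (H2 p q D) ≤ Real.log 100 + Real.log Γ := by
      rw [← Real.log_mul (by norm_num) (by linarith)]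
      exact Real.log_le_log hH0 hb1
    have l2 : Real.log Γ ≤ Real.log 100 + Real.log (H2 p q D) := by
      rw [← Real.log_mul (by norm_num) hH0.ne']
      exact Real.log_le_log (by linarith) hb2
    have l3 : (w : ℝ) * Real.log (H2 p q D) ≤ (w.natAbs : ℝ) * Real.log 100 + w * Real.log Γ := by
      rcases le_total 0 w with hw0 | hw0
      · have h2 : (0 : ℝ) ≤ w := by exact_mod_cast hw0
        have h1 : ((w.natAbs : ℕ) : ℝ) = w := by
          rw [Nat.cast_natAbs, Int.cast_abs, abs_of_nonneg h2]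
        rw [h1]
        nlinarith
      · have h2 : (w : ℝ) ≤ 0 := by exact_mod_cast hw0
        have h1 : ((w.natAbs : ℕ) : ℝ) = -w := by
          rw [Nat.cast_natAbs, Int.cast_abs, abs_of_nonpos h2]
        rw [h1]
        nlinarith
    push_cast at hN
    nlinarith

/-- **The bound.** -/
theorem bad_count {n t : ℕ} (ht : t ≤ n) (J : Finset (Fin t)) (dg : Fin t → ℕ)
    (hdg : ∀ i, 1 ≤ dg i) (S : Finset ℕ) (η : ℝ) (hη : 0 < η) :
    ∃ C : ℝ, ∀ (T : ℕ) (κ : ℝ), 1 ≤ T →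
      ((Bad (n := n) J dg S T κ).ncard : ℝ) ≤
        C * (T : ℝ) ^ (∑ i, ((n + 1 + dg i).choose (n + 1) : ℝ) - κ + η) := by
  classical
  set w : ℤ := (∑ i, dg i : ℕ) - ((n + 2 : ℕ) : ℤ) with hw
  obtain ⟨C, hC, hmain⟩ := main_count (n := n) ht J dg hdg S w hw η hη
  set N : ℕ := ∑ i, (n + 1 + dg i).choose (n + 1) with hN
  refine ⟨C * 100 ^ w.natAbs * 200 ^ η * 200 ^ N, fun T κ hT => ?_⟩
  have hTr : (1 : ℝ) ≤ T := by exact_mod_cast hT
  have hT0 : (0 : ℝ) < T := by linarith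
  have h1 := hmain (200 * T) (100 ^ w.natAbs * (T : ℝ) ^ ((2 * t : ℝ) - κ))
    (bad_finite J dg S T κ).toFinset (by omega) (by positivity) (fun F hF =>
      bad_to_bad0 J dg S T κ hT w hw F ((Set.Finite.mem_toFinset _).1 hF))
  rw [Set.ncard_eq_toFinset_card _ (bad_finite J dg S T κ)]
  refine h1.trans ?_
  have hNr : ∑ i, ((n + 1 + dg i).choose (n + 1) : ℝ) = N := by rw [hN]; push_cast; rfl
  rw [hNr]
  have e1 : (((200 * T : ℕ) : ℝ)) = 200 * T := by push_cast; ring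
  rw [e1, Real.mul_rpow (by norm_num) hT0.le, mul_pow, mul_pow]
  have e2 : (T : ℝ) ^ ((N : ℝ) - κ + η) =
      (T : ℝ) ^ ((2 * t : ℝ) - κ) * (T : ℝ) ^ η * ((T : ℝ) ^ N / (T : ℝ) ^ (2 * t)) := by
    rw [← Real.rpow_natCast (T : ℝ) N, ← Real.rpow_natCast (T : ℝ) (2 * t),
      ← Real.rpow_sub hT0, ← Real.rpow_add hT0, ← Real.rpow_add hT0]
    congr 1
    push_cast
    ring
  rw [e2]
  have e3 : (1 : ℝ) ≤ 200 ^ (2 * t) := one_le_pow₀ (by norm_num)
  have e4 : 200 ^ N * (T : ℝ) ^ N / (200 ^ (2 * t) * (T : ℝ) ^ (2 * t)) ≤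
      200 ^ N * ((T : ℝ) ^ N / (T : ℝ) ^ (2 * t)) := by
    rw [mul_div_assoc]
    refine mul_le_mul_of_nonneg_left ?_ (by positivity)
    exact div_le_div_of_nonneg_left (by positivity) (by positivity)
      (le_mul_of_one_le_left (by positivity) e3)
  calc C * (100 ^ w.natAbs * (T : ℝ) ^ ((2 * t : ℝ) - κ)) * (200 ^ η * (T : ℝ) ^ η) *
        (200 ^ N * (T : ℝ) ^ N / (200 ^ (2 * t) * (T : ℝ) ^ (2 * t)))
      ≤ C * (100 ^ w.natAbs * (T : ℝ) ^ ((2 * t : ℝ) - κ)) * (200 ^ η * (T : ℝ) ^ η) *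
        (200 ^ N * ((T : ℝ) ^ N / (T : ℝ) ^ (2 * t))) :=
        mul_le_mul_of_nonneg_left e4 (by positivity)
    _ = _ := by ring

end Pool.Agent.Q256.T4
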